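import Pool.Agent.J4H76.TP.Ev

/-! Limits of the mean squares. -/
set_option autoImplicit false
open Filter Topology MeasureTheory

namespace Pool.Agent.J4H76.TP

noncomputable section

open AddMonoidAlgebra (single)

lemma kap_cont {X : Type} [TopologicalSpace X] {s p : X → ℝ} (hs : Continuous s)
    (hp : Continuous p) : ∀ m : ℕ, Continuous (fun x => kap (s x) (p x) m)
  | 0 => by simp only [kap]; exact continuous_const
  | 1 => by simp only [kap]; exact hs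
  | (m + 2) => by
    simp only [kap]
    exact (hs.mul (kap_cont hs hp (m + 1))).sub (hp.mul (kap_cont hs hp m))

lemma KK_cont {X : Type} [TopologicalSpace X] {s p : X → ℝ} (hs : Continuous s)
    (hp : Continuous p) (g : Polynomial ℝ) : Continuous (fun x => KK (s x) (p x) g) := by
  unfold KK
  simp only [Polynomial.sum_def, smul_eq_mul]
  exact continuous_finsetSum _ fun m _ => continuous_const.mul (kap_cont hs hp m)

lemma Rf_cont : Continuous (fun q : ℝ × ℝ => Rf q.1 q.2) := by unfold Rf; fun_prop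
lemma Xf_cont : Continuous (fun q : ℝ × ℝ => Xf q.1 q.2) := by unfold Xf; fun_prop

lemma Pf_cont (F : Polynomial ℝ) : Continuous (fun q : ℝ × ℝ => Pf q.1 F q.2) := by
  unfold Pf F0
  have h1 := Rf_cont
  have h2 := F.continuous.comp Rf_cont
  have h3 : Continuous (fun q : ℝ × ℝ => F.eval (Rf q.1 q.2)) := h2
  fun_prop

lemma Bf_cont (F : Polynomial ℝ) : Continuous (fun q : ℝ × ℝ => Bf q.1 F q.2) := by
  unfold Bf
  have h1 := Xf_cont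
  have h3 : Continuous (fun q : ℝ × ℝ => KK (2 * (1 + q.1 ^ 2) - Xf q.1 q.2)
      ((1 - q.1 ^ 2) ^ 2) (Polynomial.X ^ 4 * F ^ 2)) := KK_cont (by fun_prop) (by fun_prop) _
  fun_prop

/-- mean square over the circle -/
def ms (g : ℝ → ℝ) : ℝ := 1 / (2 * Real.pi) * ∫ θ in (0 : ℝ)..(2 * Real.pi), g θ ^ 2

lemma ms_tendsto {g : ℝ × ℝ → ℝ} (hg : Continuous g) {ρ : ℕ → ℝ} {ρ0 : ℝ}
    (h : Tendsto ρ atTop (𝓝 ρ0)) :
    Tendsto (fun n => ms (fun θ => g (ρ n, θ))) atTop (𝓝 (ms fun θ => g (ρ0, θ))) := by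
  unfold ms
  refine Tendsto.const_mul _ ?_
  have h1 : Continuous (fun r : ℝ => ∫ θ in (0 : ℝ)..(2 * Real.pi), g (r, θ) ^ 2) := by
    refine intervalIntegral.continuous_parametric_intervalIntegral_of_continuous' ?_ _ _
    exact (hg.pow 2)
  exact (h1.tendsto ρ0).comp h

lemma N2_PP (ρ : BS) (F : Polynomial ℝ) (n : ℕ) : N2 (PP ρ F) n = ms (Pf (ρ.1 n) F) :=
  N2_real (fun θ => ez_PP ρ F θ n) fun θ => by unfold Pf Rf; rw [Real.cos_neg]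

lemma N2_B1 (ρ : BS) (F : Polynomial ℝ) (n : ℕ) : N2 (B1 ρ F) n = ms (Bf (ρ.1 n) F) :=
  N2_real (fun θ => ez_B1 ρ F θ n) fun θ => by unfold Bf Xf; rw [Real.cos_neg]

lemma ez_A1 (θ : ℝ) (n : ℕ) : ez (ex θ) n A1 =
    (((2 + 2 * Real.cos θ) * (4 - (2 + 2 * Real.cos θ)) : ℝ) : ℂ) := by
  have h : ez (ex θ) n xz = ((2 + 2 * Real.cos θ : ℝ) : ℂ) := by
    unfold xz
    rw [map_add, map_add, add_assoc, ez_y, map_ofNat]
    push_cast; ring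
  unfold A1
  rw [map_mul, map_sub, map_ofNat, h]
  push_cast; ring

lemma N2_A1 (n : ℕ) : N2 A1 n = ms (fun θ => (2 + 2 * Real.cos θ) * (4 - (2 + 2 * Real.cos θ))) :=
  N2_real (fun θ => ez_A1 θ n) fun θ => by rw [Real.cos_neg]

lemma cnt (c : ℝ) : {θ : ℝ | Real.cos θ = c}.Countable := by
  by_cases h : ∃ a, Real.cos a = c
  · obtain ⟨a, rfl⟩ := h
    refine ((Set.countable_range (fun k : ℤ => 2 * (k : ℝ) * Real.pi + a)).union
      (Set.countable_range (fun k : ℤ => 2 * (k : ℝ) * Real.pi - a))).mono ?_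
    intro θ hθ
    have h1 : Real.cos a = Real.cos θ := hθ.symm
    rw [Real.cos_eq_cos_iff] at h1
    obtain ⟨k, hk | hk⟩ := h1
    · exact Or.inl ⟨k, hk.symm⟩
    · exact Or.inr ⟨k, hk.symm⟩
  · push Not at h
    convert Set.countable_empty
    ext θ
    simp only [Set.mem_ofPred_eq, Set.mem_empty_iff_false, iff_false]
    exact h θ

/-- dominated convergence for the mean squares -/
lemma ms_dom {g : ℕ → ℝ → ℝ} (hg : ∀ N, Continuous (g N)) {M c : ℝ}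
    (hb : ∀ N θ, |g N θ| ≤ M) (h : ∀ θ, Real.cos θ ≠ c → Tendsto (fun N => g N θ) atTop (𝓝 0)) :
    Tendsto (fun N => ms (g N)) atTop (𝓝 0) := by
  have key : Tendsto (fun N : ℕ => ∫ θ in (0 : ℝ)..(2 * Real.pi), g N θ ^ 2) atTop
      (𝓝 (∫ _θ in (0 : ℝ)..(2 * Real.pi), (0 : ℝ))) := by
    refine intervalIntegral.tendsto_integral_filter_of_dominated_convergence
      (fun _ => M ^ 2)
      (Eventually.of_forall fun N => ((hg N).pow 2).aestronglyMeasurable)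
      (Eventually.of_forall fun N => ae_of_all _ fun θ _ => ?_)
      (intervalIntegrable_const) ?_
    · rw [Real.norm_eq_abs, abs_of_nonneg (sq_nonneg _), ← sq_abs]
      exact pow_le_pow_left₀ (abs_nonneg _) (hb N θ) 2
    · have h6 : ∀ᵐ θ : ℝ, θ ∉ {θ : ℝ | Real.cos θ = c} :=
        measure_eq_zero_iff_ae_notMem.1 ((cnt _).measure_zero volume)
      filter_upwards [h6] with θ hθ _
      have := (h θ hθ).pow 2
      rwa [zero_pow two_ne_zero] at this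
  have k2 := key.const_mul (1 / (2 * Real.pi))
  simpa [ms] using k2

/-- the peak polynomial -/
def pk (t : ℝ) : Polynomial ℝ :=
  1 - Polynomial.C (1 / (4 + t) ^ 2) * (Polynomial.X - Polynomial.C t) ^ 2

lemma pk_eval (t x : ℝ) : (pk t).eval x = 1 - (x - t) ^ 2 / (4 + t) ^ 2 := by
  unfold pk
  simp only [Polynomial.eval_sub, Polynomial.eval_one, Polynomial.eval_mul, Polynomial.eval_C,
    Polynomial.eval_X, Polynomial.eval_pow]
  ring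

lemma pk_one (t : ℝ) : (pk t).eval t = 1 := by rw [pk_eval]; simp

lemma pk_bd {t x : ℝ} (ht : 0 ≤ t) (h0 : 0 ≤ x) (h4 : x ≤ 4) : 0 ≤ (pk t).eval x ∧
    (pk t).eval x ≤ 1 := by
  rw [pk_eval]
  have h1 : (x - t) ^ 2 ≤ (4 + t) ^ 2 := by nlinarith
  have h2 : 0 < (4 + t) ^ 2 := by positivity
  have h3 : (x - t) ^ 2 / (4 + t) ^ 2 ≤ 1 := by rw [div_le_one h2]; exact h1
  have h4 : 0 ≤ (x - t) ^ 2 / (4 + t) ^ 2 := by positivity
  constructor <;> linarith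

lemma pk_lt {t x : ℝ} (ht : 0 ≤ t) (hx : x ≠ t) : (pk t).eval x < 1 := by
  rw [pk_eval]
  have h2 : 0 < (4 + t) ^ 2 := by positivity
  have h3 : 0 < (x - t) ^ 2 := by
    have : x - t ≠ 0 := sub_ne_zero.2 hx
    positivity
  have := div_pos h3 h2
  linarith

lemma Rf_bd {ρ : ℝ} (h0 : 0 ≤ ρ) (h1 : ρ ≤ 1) (θ : ℝ) : 0 ≤ Rf ρ θ ∧ Rf ρ θ ≤ 4 := by
  unfold Rf
  have a := Real.cos_le_one θ
  have b := Real.neg_one_le_cos θ
  constructor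
  · nlinarith
  · nlinarith

lemma Pf_lim {ρ t : ℝ} (h0 : 0 < ρ) (h1 : ρ ≤ 1) (ht : 0 ≤ t) :
    Tendsto (fun N : ℕ => ms (Pf ρ (pk t ^ N))) atTop (𝓝 0) := by
  have b0 : ∀ θ, |F0 ρ (Rf ρ θ)| ≤ 1000 := by
    intro θ
    obtain ⟨a, b⟩ := Rf_bd h0.le h1 θ
    obtain ⟨r, hr⟩ : ∃ r, r = Rf ρ θ := ⟨_, rfl⟩
    rw [← hr] at a b ⊢
    have hρ : ρ ^ 2 ≤ 1 := by nlinarith
    have hρ0 : 0 ≤ ρ ^ 2 := sq_nonneg _
    obtain ⟨q, hq⟩ : ∃ q, q = ρ ^ 2 := ⟨_, rfl⟩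
    unfold F0
    rw [← hq] at hρ hρ0 ⊢
    have c1 : |r ^ 2 - 2 * (1 + q) * r + (1 - q) ^ 2| ≤ 20 := by
      rw [abs_le]; constructor <;> nlinarith
    have c2 : |r ^ 2 - (1 - q) ^ 2| ≤ 20 := by
      rw [abs_le]; constructor <;> nlinarith
    rw [abs_mul]
    calc _ ≤ (20 : ℝ) * 20 := mul_le_mul c1 c2 (abs_nonneg _) (by norm_num)
      _ ≤ 1000 := by norm_num
  refine ms_dom (M := 1000) (c := (t - 1 - ρ ^ 2) / (2 * ρ)) (fun N => ?_) (fun N θ => ?_)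
    (fun θ hθ => ?_)
  · exact (Pf_cont (pk t ^ N)).comp (continuous_const.prodMk continuous_id)
  · unfold Pf
    rw [abs_mul, Polynomial.eval_pow, abs_pow]
    obtain ⟨a, b⟩ := Rf_bd h0.le h1 θ
    obtain ⟨c, d⟩ := pk_bd ht a b
    rw [abs_of_nonneg c]
    have := pow_le_one₀ (n := N) c d
    calc _ ≤ (1000 : ℝ) * 1 := mul_le_mul (b0 θ) this (pow_nonneg c _) (by norm_num)
      _ = 1000 := by norm_num
  · unfold Pf
    simp only [Polynomial.eval_pow]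
    obtain ⟨a, b⟩ := Rf_bd h0.le h1 θ
    obtain ⟨c, d⟩ := pk_bd ht a b
    have hne : Rf ρ θ ≠ t := by
      intro h
      apply hθ
      rw [eq_div_iff (by positivity)]
      unfold Rf at h
      linarith
    have h2 := tendsto_pow_atTop_nhds_zero_of_lt_one c (pk_lt ht hne)
    have := h2.const_mul (F0 ρ (Rf ρ θ))
    rwa [mul_zero] at this

lemma roots {ρ X : ℝ} (h0 : 0 ≤ ρ) (h1 : ρ ≤ 1) (hX0 : 0 ≤ X) (hX : X ≤ 4 * ρ ^ 2) :
    ∃ r1 r2 : ℝ, r1 + r2 = 2 * (1 + ρ ^ 2) - X ∧ r1 * r2 = (1 - ρ ^ 2) ^ 2 ∧ 0 ≤ r1 ∧ r1 ≤ 4 ∧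
      0 ≤ r2 ∧ r2 ≤ 4 := by
  have hρ : ρ ^ 2 ≤ 1 := by nlinarith
  obtain ⟨s, hs⟩ : ∃ s, s = 2 * (1 + ρ ^ 2) - X := ⟨_, rfl⟩
  have s0 : 0 ≤ s := by rw [hs]; nlinarith
  have s4 : s ≤ 4 := by rw [hs]; nlinarith
  have hd : 0 ≤ s ^ 2 - 4 * (1 - ρ ^ 2) ^ 2 := by
    have : s ^ 2 - 4 * (1 - ρ ^ 2) ^ 2 = (4 * ρ ^ 2 - X) * (4 - X) := by rw [hs]; ring
    rw [this]
    exact mul_nonneg (by linarith) (by nlinarith)
  obtain ⟨d, hd'⟩ : ∃ d, d = √(s ^ 2 - 4 * (1 - ρ ^ 2) ^ 2) := ⟨_, rfl⟩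
  have d0 : 0 ≤ d := by rw [hd']; exact Real.sqrt_nonneg _
  have d2 : d ^ 2 = s ^ 2 - 4 * (1 - ρ ^ 2) ^ 2 := by rw [hd']; exact Real.sq_sqrt hd
  have ds : d ≤ s := by
    have : d ^ 2 ≤ s ^ 2 := by rw [d2]; nlinarith [sq_nonneg (1 - ρ ^ 2)]
    exact (pow_le_pow_iff_left₀ d0 s0 two_ne_zero).1 this
  refine ⟨(s + d) / 2, (s - d) / 2, by rw [← hs]; ring, ?_, by linarith, by linarith, by linarith,
    by linarith⟩
  linear_combination (-1 / 4 : ℝ) * d2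

lemma Bf_lim {ρ t : ℝ} (h0 : 0 < ρ) (h1 : ρ ≤ 1) (ht : 0 ≤ t) (h2 : t = 0 → ρ < 1) :
    Tendsto (fun N : ℕ => ms (Bf ρ (pk t ^ N))) atTop (𝓝 0) := by
  have hρ : ρ ^ 2 ≤ 1 := by nlinarith
  have hX : ∀ θ, 0 ≤ Xf ρ θ ∧ Xf ρ θ ≤ 4 * ρ ^ 2 := by
    intro θ
    unfold Xf
    have a := Real.cos_le_one θ
    have b := Real.neg_one_le_cos θ
    have c : 0 ≤ ρ ^ 2 := sq_nonneg _
    constructor
    · exact mul_nonneg c (by linarith)
    · nlinarith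
  -- the value through the roots
  have val : ∀ (θ : ℝ) (N : ℕ), ∃ r1 r2 : ℝ, r1 + r2 = 2 * (1 + ρ ^ 2) - Xf ρ θ ∧
      r1 * r2 = (1 - ρ ^ 2) ^ 2 ∧ 0 ≤ r1 ∧ r1 ≤ 4 ∧ 0 ≤ r2 ∧ r2 ≤ 4 ∧
      Bf ρ (pk t ^ N) θ = Xf ρ θ * (4 * ρ ^ 2 - Xf ρ θ) *
        (r1 ^ 4 * ((pk t).eval r1 ^ N) ^ 2 + r2 ^ 4 * ((pk t).eval r2 ^ N) ^ 2) := by
    intro θ N
    obtain ⟨r1, r2, e1, e2, a1, a2, a3, a4⟩ := roots h0.le h1 (hX θ).1 (hX θ).2
    refine ⟨r1, r2, e1, e2, a1, a2, a3, a4, ?_⟩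
    unfold Bf
    rw [KK_eq e1 e2]
    simp only [Polynomial.coe_aeval_eq_eval, Polynomial.eval_mul, Polynomial.eval_pow,
      Polynomial.eval_X]
  refine ms_dom (M := 100000) (c := (2 * (1 + ρ ^ 2) - (t ^ 2 + (1 - ρ ^ 2) ^ 2) / t - 2 * ρ ^ 2) /
    (2 * ρ ^ 2)) (fun N => ?_) (fun N θ => ?_) (fun θ hθ => ?_)
  · exact (Bf_cont (pk t ^ N)).comp (continuous_const.prodMk continuous_id)
  · obtain ⟨r1, r2, -, -, a1, a2, a3, a4, e⟩ := val θ N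
    rw [e]
    obtain ⟨x0, x1⟩ := hX θ
    obtain ⟨c1, d1⟩ := pk_bd ht a1 a2
    obtain ⟨c2, d2⟩ := pk_bd ht a3 a4
    have u1 : r1 ^ 4 * ((pk t).eval r1 ^ N) ^ 2 ≤ 256 := by
      have k1 : r1 ^ 4 ≤ 4 ^ 4 := pow_le_pow_left₀ a1 a2 4
      have k2 : ((pk t).eval r1 ^ N) ^ 2 ≤ 1 :=
        pow_le_one₀ (pow_nonneg c1 _) (pow_le_one₀ c1 d1)
      calc _ ≤ (4 : ℝ) ^ 4 * 1 := mul_le_mul k1 k2 (sq_nonneg _) (by norm_num)
        _ = 256 := by norm_num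
    have u2 : r2 ^ 4 * ((pk t).eval r2 ^ N) ^ 2 ≤ 256 := by
      have k1 : r2 ^ 4 ≤ 4 ^ 4 := pow_le_pow_left₀ a3 a4 4
      have k2 : ((pk t).eval r2 ^ N) ^ 2 ≤ 1 :=
        pow_le_one₀ (pow_nonneg c2 _) (pow_le_one₀ c2 d2)
      calc _ ≤ (4 : ℝ) ^ 4 * 1 := mul_le_mul k1 k2 (sq_nonneg _) (by norm_num)
        _ = 256 := by norm_num
    have v1 : 0 ≤ r1 ^ 4 * ((pk t).eval r1 ^ N) ^ 2 := by positivity
    have v2 : 0 ≤ r2 ^ 4 * ((pk t).eval r2 ^ N) ^ 2 := by positivity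
    have w1 : 0 ≤ Xf ρ θ * (4 * ρ ^ 2 - Xf ρ θ) := mul_nonneg x0 (by linarith)
    have w2 : Xf ρ θ * (4 * ρ ^ 2 - Xf ρ θ) ≤ 16 := by nlinarith
    rw [abs_of_nonneg (mul_nonneg w1 (by linarith))]
    calc _ ≤ (16 : ℝ) * 512 := mul_le_mul w2 (by linarith) (by linarith) (by norm_num)
      _ ≤ 100000 := by norm_num
  · obtain ⟨r1, r2, e1, e2, a1, a2, a3, a4, -⟩ := val θ 0
    have hne : ∀ r, r + (2 * (1 + ρ ^ 2) - Xf ρ θ - r) = 2 * (1 + ρ ^ 2) - Xf ρ θ →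
        r * (2 * (1 + ρ ^ 2) - Xf ρ θ - r) = (1 - ρ ^ 2) ^ 2 → r ≠ t := by
      intro r _ h h3
      rcases ht.eq_or_lt with h4 | h4
      · have h5 := h2 h4.symm
        rw [h3, ← h4, zero_mul] at h
        have h6 : 0 < 1 - ρ ^ 2 := by nlinarith
        have h7 := pow_pos h6 2
        linarith
      apply hθ
      subst h3
      have : Xf ρ θ = 2 * (1 + ρ ^ 2) - (r ^ 2 + (1 - ρ ^ 2) ^ 2) / r := by
        field_simp
        linarith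
      unfold Xf at this
      rw [eq_div_iff (by positivity)]
      linarith
    have n1 : r1 ≠ t := hne r1 (by ring) (by rw [← e2, ← e1]; ring)
    have n2 : r2 ≠ t := hne r2 (by ring) (by rw [← e2, ← e1]; ring)
    have q1 := (tendsto_pow_atTop_nhds_zero_of_lt_one (pk_bd ht a1 a2).1 (pk_lt ht n1)).pow 2
    have q2 := (tendsto_pow_atTop_nhds_zero_of_lt_one (pk_bd ht a3 a4).1 (pk_lt ht n2)).pow 2
    have q3 := ((q1.const_mul (r1 ^ 4)).add (q2.const_mul (r2 ^ 4))).const_mul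
      (Xf ρ θ * (4 * ρ ^ 2 - Xf ρ θ))
    simp only [zero_pow two_ne_zero, mul_zero, add_zero] at q3
    refine q3.congr fun N => ?_
    unfold Bf
    rw [KK_eq e1 e2]
    simp only [Polynomial.coe_aeval_eq_eval, Polynomial.eval_mul, Polynomial.eval_pow,
      Polynomial.eval_X]

end

end Pool.Agent.J4H76.TP
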