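import Mathlib

/-! Bounded sequences, Laurent polynomials over them, null ideals. -/
set_option autoImplicit false
open Filter Topology

namespace Pool.Agent.J4H76.TP

noncomputable section

/-- bounded real sequences -/
def BS0 : Subalgebra ℝ (ℕ → ℝ) where
  carrier := {f | ∃ C : ℝ, ∀ n, |f n| ≤ C}
  mul_mem' := by
    rintro f g ⟨C, hC⟩ ⟨D, hD⟩
    refine ⟨C * D, fun n => ?_⟩
    rw [Pi.mul_apply, abs_mul]
    exact mul_le_mul (hC n) (hD n) (abs_nonneg _) ((abs_nonneg _).trans (hC n))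
  add_mem' := by
    rintro f g ⟨C, hC⟩ ⟨D, hD⟩
    exact ⟨C + D, fun n => (abs_add_le _ _).trans (add_le_add (hC n) (hD n))⟩
  algebraMap_mem' := by
    intro r
    exact ⟨|r|, fun n => le_of_eq (by simp)⟩

/-- the ring of bounded real sequences -/
def BS : Type := ↥BS0

instance : CommRing BS := inferInstanceAs (CommRing ↥BS0)

instance : Algebra ℝ BS := inferInstanceAs (Algebra ℝ ↥BS0)

lemma BS.add_ap (r s : BS) (n : ℕ) : (r + s).1 n = r.1 n + s.1 n := rfl
lemma BS.mul_ap (r s : BS) (n : ℕ) : (r * s).1 n = r.1 n * s.1 n := rfl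
lemma BS.zero_ap (n : ℕ) : (0 : BS).1 n = 0 := rfl
lemma BS.one_ap (n : ℕ) : (1 : BS).1 n = 1 := rfl
lemma BS.map_ap (r : ℝ) (n : ℕ) : (algebraMap ℝ BS r).1 n = r := rfl

/-- Laurent polynomials -/
abbrev AA (G : Type) [AddCommGroup G] := AddMonoidAlgebra BS G

open AddMonoidAlgebra (single)

variable {G : Type} [AddCommGroup G]

/-- the functional of a family of moments -/
def EE (J : G → ℕ → ℂ) (f : AA G) (n : ℕ) : ℂ :=
  f.coeff.sum fun a r => ((r.1 n : ℝ) : ℂ) * J a n

lemma EE_add (J : G → ℕ → ℂ) (f g : AA G) (n : ℕ) : EE J (f + g) n = EE J f n + EE J g n := by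
  classical
  unfold EE
  rw [AddMonoidAlgebra.coeff_add, Finsupp.sum_add_index]
  · intro a _; simp [BS.zero_ap]
  · intro a _ r s; rw [BS.add_ap]; push_cast; ring

lemma EE_single (J : G → ℕ → ℂ) (a : G) (r : BS) (n : ℕ) :
    EE J (single a r) n = ((r.1 n : ℝ) : ℂ) * J a n := by
  unfold EE
  rw [AddMonoidAlgebra.coeff_single, Finsupp.sum_single_index]
  simp [BS.zero_ap]

lemma EE_zero (J : G → ℕ → ℂ) (n : ℕ) : EE J (0 : AA G) n = 0 := by
  unfold EE; simp

/-- the functional as an additive map -/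
def EEh (J : G → ℕ → ℂ) (n : ℕ) : AA G →+ ℂ where
  toFun f := EE J f n
  map_zero' := EE_zero J n
  map_add' f g := EE_add J f g n

lemma EE_sub (J : G → ℕ → ℂ) (f g : AA G) (n : ℕ) : EE J (f - g) n = EE J f n - EE J g n :=
  (EEh J n).map_sub f g

lemma EE_neg (J : G → ℕ → ℂ) (f : AA G) (n : ℕ) : EE J (-f) n = - EE J f n :=
  (EEh J n).map_neg f

lemma EE_sum (J : G → ℕ → ℂ) {ι : Type} (s : Finset ι) (f : ι → AA G) (n : ℕ) :
    EE J (∑ i ∈ s, f i) n = ∑ i ∈ s, EE J (f i) n :=
  map_sum (EEh J n) f s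

/-- coefficients -/
lemma EE_smul (J : G → ℕ → ℂ) (r : BS) (f : AA G) (n : ℕ) :
    EE J (single 0 r * f) n = ((r.1 n : ℝ) : ℂ) * EE J f n := by
  induction f using AddMonoidAlgebra.induction_linear with
  | zero => simp [EE_zero]
  | add f g hf hg => rw [mul_add, EE_add, EE_add, hf, hg]; ring
  | single a s =>
    rw [AddMonoidAlgebra.single_mul_single, EE_single, EE_single, zero_add]
    rw [BS.mul_ap]; push_cast; ring

/-- difference of functionals -/
lemma EE_fsub (J J' : G → ℕ → ℂ) (f : AA G) (n : ℕ) :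
    EE (fun a n => J a n - J' a n) f n = EE J f n - EE J' f n := by
  unfold EE
  rw [Finsupp.sum, Finsupp.sum, Finsupp.sum, ← Finset.sum_sub_distrib]
  exact Finset.sum_congr rfl fun a _ => by ring

lemma EE_fmul (J : G → ℕ → ℂ) (c : ℂ) (f : AA G) (n : ℕ) :
    EE (fun a n => J a n * c) f n = EE J f n * c := by
  unfold EE
  rw [Finsupp.sum, Finsupp.sum, Finset.sum_mul]
  exact Finset.sum_congr rfl fun a _ => by ring

lemma bnd_null {r : BS} {u : ℕ → ℂ} (hu : Tendsto u atTop (𝓝 0)) :
    Tendsto (fun n => ((r.1 n : ℝ) : ℂ) * u n) atTop (𝓝 0) := by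
  obtain ⟨C, hC⟩ := r.2
  have h1 : Tendsto (fun n => C * ‖u n‖) atTop (𝓝 0) := by
    simpa using hu.norm.const_mul C
  refine squeeze_zero_norm (fun n => ?_) h1
  rw [norm_mul, Complex.norm_real, Real.norm_eq_abs]
  exact mul_le_mul_of_nonneg_right (hC n) (norm_nonneg _)

/-- the null ideal of a family of moments -/
def NI (J : G → ℕ → ℂ) : Ideal (AA G) where
  carrier := {f | ∀ a, Tendsto (EE J (f * a)) atTop (𝓝 0)}
  add_mem' := by
    intro f g hf hg a
    have := (hf a).add (hg a)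
    rw [add_zero] at this
    refine this.congr fun n => ?_
    rw [add_mul, EE_add]
  zero_mem' := by
    intro a
    refine tendsto_const_nhds.congr fun n => ?_
    rw [zero_mul, EE_zero]
  smul_mem' := by
    intro c f hf a
    refine (hf (c * a)).congr fun n => ?_
    rw [smul_eq_mul]
    congr 1; ring

lemma NI_tendsto {J : G → ℕ → ℂ} {f : AA G} (hf : f ∈ NI J) : Tendsto (EE J f) atTop (𝓝 0) := by
  have := hf 1
  rwa [mul_one] at this

lemma mem_NI {J : G → ℕ → ℂ} {f : AA G}
    (h : ∀ g : G, Tendsto (EE J (f * single g 1)) atTop (𝓝 0)) : f ∈ NI J := by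
  intro a
  induction a using AddMonoidAlgebra.induction_linear with
  | zero =>
    refine tendsto_const_nhds.congr fun n => ?_
    rw [mul_zero, EE_zero]
  | add a b ha hb =>
    have := ha.add hb
    rw [add_zero] at this
    refine this.congr fun n => ?_
    rw [mul_add, EE_add]
  | single g r =>
    refine (bnd_null (r := r) (h g)).congr fun n => ?_
    rw [← EE_smul]
    congr 1
    have e : single g r = single 0 r * single g (1 : BS) := by
      rw [AddMonoidAlgebra.single_mul_single, zero_add, mul_one]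
    rw [e]; ring

end

end Pool.Agent.J4H76.TP
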