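import Pool.Agent.J4H76.TP.Sys
import Pool.Agent.Y265.HY.JC1

/-! The cubic moments of three ladder systems. -/
set_option autoImplicit false
open MeasureTheory Filter Topology Complex Set
open scoped ContDiff Real Manifold

namespace Pool.Agent.J4H76.TP

open Pool.Agent.W745.RW Pool.Agent.TH294.RS Pool.Agent.Y265.HY Pool.Agent.R314.JN
open AddMonoidAlgebra (single)

noncomputable section

variable {B : Set ℂ} {h κ ε : ℕ → ℝ} {w v g : ℤ → ℕ → ℂ → ℂ}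

/-- translation relation of three ladders -/
lemma tr3 (H : SY B Complex.im h w) (H' : SY B Complex.im κ v) (H'' : SY B Complex.im ε g)
    (hBU : B ⊆ UH) {C : ℝ} (hC : ∀ n, h n ≤ C * κ n) (h0 : EX B h w (w 0))
    (k0 : EX B κ v (v 0)) (i j k : ℤ) :
    WN B (fun n z => w (i + 1) n z * v j n z * g k n z +
      ((h n / κ n : ℝ) : ℂ) * (w i n z * v (j + 1) n z * g k n z) +
      ((h n / ε n : ℝ) : ℂ) * (w i n z * v j n z * g (k + 1) n z)) := by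
  have hB := H.op
  obtain ⟨e1, he1, g1⟩ := H.up i
  obtain ⟨e2, he2, g2⟩ := H'.up j
  obtain ⟨e3, he3, g3⟩ := H''.up k
  have hC' : ∀ n, |h n / κ n| ≤ C := by
    intro n
    have := H.hpos n
    have := H'.hpos n
    rw [abs_of_nonneg (by positivity), div_le_iff₀ (by positivity)]
    exact hC n
  have T : WN B (fun n z => DP Complex.im (h n) (fun z => w i n z * v j n z * g k n z) z) := by
    have hs : ∀ n, ContDiffOn ℝ ∞ (fun z => w i n z * v j n z * g k n z) B := fun n =>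
      (((H.bd i).sm n).mul ((H'.bd j).sm n)).mul ((H''.bd k).sm n)
    have w0 : WN B (fun n z => (h n : ℂ) * (w i n z * v j n z * g k n z)) :=
      (JC.hE3 H hBU (LB.mul2 (H'.bd j).lb (H''.bd k).lb) (RP.W H h0 i)).congr
        fun n z _ => by ring
    have h1 := parts' hB (G := fun n z => w i n z * v j n z * g k n z) hs w0 H.sa 1
    have h2 := (parts' hB (G := fun n z => w i n z * v j n z * g k n z) hs w0 H.sa I).cmul I
    exact (h1.sub h2).congr fun n z _ => by simp only [DP, dd, dx, dy]; ring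
  have E1 := WN.bsc (JC.hE3 H' hBU (LB.mul2 he1.lb (H''.bd k).lb) (RP.W H' k0 j)) hC'
  have E2 := JC.hE3 H hBU (LB.mul2 he2.lb (H''.bd k).lb) (RP.W H h0 i)
  have E3 := JC.hE3 H hBU (LB.mul2 (H'.bd j).lb he3.lb) (RP.W H h0 i)
  refine (T.sub ((E1.add E2).add E3)).congr fun n z hz => ?_
  have c1 := g1 n z hz
  have c2 := g2 n z hz
  have c3 := g3 n z hz
  have d1 := da hB ((H.bd i).sm n) hz
  have d2 := da hB ((H'.bd j).sm n) hz
  have d3 := da hB ((H''.bd k).sm n) hz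
  have hk : (κ n : ℂ) ≠ 0 := by exact_mod_cast (H'.hpos n).ne'
  have he : (ε n : ℂ) ≠ 0 := by exact_mod_cast (H''.hpos n).ne'
  have hr : ((h n / κ n : ℝ) : ℂ) * (κ n : ℂ) = (h n : ℂ) := by
    push_cast; field_simp
  have hr' : ((h n / ε n : ℝ) : ℂ) * (ε n : ℂ) = (h n : ℂ) := by
    push_cast; field_simp
  simp only [DP] at c1 c2 c3 ⊢
  rw [dd_mul (f := fun z => w i n z * v j n z) (g := fun z => g k n z) (d1.mul d2) d3,
    dd_mul d1 d2]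
  linear_combination (-(v j n z * g k n z)) * c1
    - ((h n / κ n : ℝ) : ℂ) * (w i n z * g k n z) * c2
    - ((h n / ε n : ℝ) : ℂ) * (w i n z * v j n z) * c3
    + (w i n z * g k n z * ((z.im : ℂ) * dd (v j n) z - e2 n z)
      + v j n z * g k n z * e1 n z) * hr
    + (w i n z * v j n z * ((z.im : ℂ) * dd (g k n) z - e3 n z)) * hr'

abbrev Z3 := ℤ × ℤ × ℤ

/-- cubic moments -/
def C3 (w v g : ℤ → ℕ → ℂ → ℂ) (ψ : ℂ → ℝ) (a : Z3) (n : ℕ) : ℂ :=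
  ∫ z, (ψ z : ℂ) * (w a.1 n z * v a.2.1 n z * g a.2.2 n z)

lemma C3_int (H : SY B Complex.im h w) (H' : SY B Complex.im κ v) (H'' : SY B Complex.im ε g)
    {ψ : ℂ → ℝ} (hψ : TF B ψ) (a b c : ℤ) (n : ℕ) :
    Integrable (fun z => (ψ z : ℂ) * (w a n z * v b n z * g c n z)) :=
  TF.cint hψ ((((H.bd a).sm n).continuousOn.mul ((H'.bd b).sm n).continuousOn).mul
    ((H''.bd c).sm n).continuousOn)

lemma C3_T (H : SY B Complex.im h w) (H' : SY B Complex.im κ v) (H'' : SY B Complex.im ε g)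
    (hBU : B ⊆ UH) {C : ℝ} (hC : ∀ n, h n ≤ C * κ n) (h0 : EX B h w (w 0))
    (k0 : EX B κ v (v 0)) {ψ : ℂ → ℝ} (hψ : TF B ψ) (a b c : ℤ) :
    Tendsto (fun n => C3 w v g ψ (a + 1, b, c) n +
      ((h n / κ n : ℝ) : ℂ) * C3 w v g ψ (a, b + 1, c) n +
      ((h n / ε n : ℝ) : ℂ) * C3 w v g ψ (a, b, c + 1) n) atTop (𝓝 0) := by
  refine ((tr3 H H' H'' hBU hC h0 k0 a b c).nul ψ hψ).congr fun n => ?_
  unfold C3
  have i1 := C3_int H H' H'' hψ (a + 1) b c n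
  have i2 := C3_int H H' H'' hψ a (b + 1) c n
  have i3 := C3_int H H' H'' hψ a b (c + 1) n
  have j2 : Integrable (fun z => ((h n / κ n : ℝ) : ℂ) * ((ψ z : ℂ) *
      (w a n z * v (b + 1) n z * g c n z))) := i2.const_mul _
  have j3 : Integrable (fun z => ((h n / ε n : ℝ) : ℂ) * ((ψ z : ℂ) *
      (w a n z * v b n z * g (c + 1) n z))) := i3.const_mul _
  have j12 : Integrable (fun z => (ψ z : ℂ) * (w (a + 1) n z * v b n z * g c n z) +
      ((h n / κ n : ℝ) : ℂ) * ((ψ z : ℂ) * (w a n z * v (b + 1) n z * g c n z))) := i1.add j2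
  rw [← integral_const_mul, ← integral_const_mul, ← integral_add i1 j2, ← integral_add j12 j3]
  congr 1; funext z
  ring

lemma C3_conj (H : SY B Complex.im h w) (H' : SY B Complex.im κ v) (H'' : SY B Complex.im ε g)
    {ψ : ℂ → ℝ} (hψ : TF B ψ) (a b c : ℤ) (n : ℕ) :
    C3 w v g ψ (-a, -b, -c) n = (-1) ^ (a.natAbs + b.natAbs + c.natAbs) *
      (starRingEnd ℂ) (C3 w v g ψ (a, b, c) n) := by
  unfold C3
  rw [← integral_conj, ← integral_const_mul]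
  congr 1; funext z
  by_cases hz : z ∈ B
  · have s : ∀ k : ℕ, ((-1 : ℂ) ^ k) * (-1) ^ k = 1 := fun k => by
      rw [← mul_pow]; norm_num
    simp only [map_mul, conj_ofReal]
    rw [H.cj a n z hz, H'.cj b n z hz, H''.cj c n z hz, pow_add, pow_add]
    have e : (-1 : ℂ) ^ a.natAbs * (-1) ^ b.natAbs * (-1) ^ c.natAbs *
        (↑(ψ z) * ((-1) ^ a.natAbs * w (-a) n z * ((-1) ^ b.natAbs * v (-b) n z) *
          ((-1) ^ c.natAbs * g (-c) n z))) =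
        (((-1 : ℂ) ^ a.natAbs * (-1) ^ a.natAbs) * ((-1) ^ b.natAbs * (-1) ^ b.natAbs) *
        ((-1) ^ c.natAbs * (-1) ^ c.natAbs)) *
        (↑(ψ z) * (w (-a) n z * v (-b) n z * g (-c) n z)) := by ring
    rw [e, s, s, s]; ring
  · rw [TF.zero hψ hz]; simp

lemma C3_T' (H : SY B Complex.im h w) (H' : SY B Complex.im κ v) (H'' : SY B Complex.im ε g)
    (hBU : B ⊆ UH) {C : ℝ} (hC : ∀ n, h n ≤ C * κ n) (h0 : EX B h w (w 0))
    (k0 : EX B κ v (v 0)) {ψ : ℂ → ℝ} (hψ : TF B ψ) (a b c : ℤ) :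
    Tendsto (fun n => C3 w v g ψ (-1 + a, b, c) n +
      ((h n / κ n : ℝ) : ℂ) * C3 w v g ψ (a, -1 + b, c) n +
      ((h n / ε n : ℝ) : ℂ) * C3 w v g ψ (a, b, -1 + c) n) atTop (𝓝 0) := by
  have h1 := C3_T H H' H'' hBU hC h0 k0 hψ (-a) (-b) (-c)
  have h2 := (continuous_conj.tendsto 0).comp h1
  rw [map_zero] at h2
  have h3 := h2.const_mul (-(-1) ^ ((-a).natAbs + (-b).natAbs + (-c).natAbs))
  rw [mul_zero] at h3
  refine h3.congr fun n => ?_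
  have gg : ∀ a b c : ℤ, C3 w v g ψ (a, b, c) n =
      (-1) ^ ((-a).natAbs + (-b).natAbs + (-c).natAbs) *
      (starRingEnd ℂ) (C3 w v g ψ (-a, -b, -c) n) := by
    intro a b c
    have := C3_conj H H' H'' hψ (-a) (-b) (-c) n
    rwa [neg_neg, neg_neg, neg_neg] at this
  have s : ∀ k : ℤ, (-1 : ℂ) ^ (-(-1 + k)).natAbs = - (-1) ^ (-k).natAbs := by
    intro k
    have : -(-1 + k) = -k + 1 := by ring
    rw [this, sgn_up]
  have e : ∀ k : ℤ, -(-1 + k) = -k + 1 := fun k => by ring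
  rw [gg (-1 + a) b c, gg a (-1 + b) c, gg a b (-1 + c)]
  simp only [pow_add, s]
  simp only [Function.comp_apply, map_add, map_mul, conj_ofReal, e]
  ring

/-- monomials -/
def m3 (a b c : ℤ) : AA Z3 := single (a, b, c) 1

lemma m3_mul (a b c a' b' c' : ℤ) : m3 a b c * m3 a' b' c' = m3 (a + a') (b + b') (c + c') := by
  unfold m3
  rw [AddMonoidAlgebra.single_mul_single, mul_one]
  rfl

lemma EE_m3 (J : Z3 → ℕ → ℂ) (a b c : ℤ) (g : Z3) (n : ℕ) :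
    EE J (m3 a b c * single g 1) n = J (a + g.1, b + g.2.1, c + g.2.2) n := by
  unfold m3
  rw [AddMonoidAlgebra.single_mul_single, mul_one, EE_single, BS.one_ap]
  simp only [ofReal_one, one_mul]
  rfl

lemma EE_cs3 (J : Z3 → ℕ → ℂ) (r : BS) (f : AA Z3) (n : ℕ) :
    EE J (cs r * f) n = ((r.1 n : ℝ) : ℂ) * EE J f n := by
  rw [cs_eq, EE_smul]

/-- the anti-diagonal direction -/
def d3 : ℤ →+ Z3 where
  toFun k := (k, -k, 0)
  map_zero' := by simp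
  map_add' k l := by
    ext
    · rfl
    · simp only [Prod.mk_add_mk]; ring
    · rfl

/-- evaluation at an index -/
def evn (n : ℕ) : BS →ₐ[ℝ] ℝ where
  toFun r := r.1 n
  map_one' := rfl
  map_mul' _ _ := rfl
  map_zero' := rfl
  map_add' _ _ := rfl
  commutes' _ := rfl

def csA : BS →ₐ[ℝ] AA Z3 where
  toFun r := cs r
  map_one' := map_one (algebraMap BS (AA Z3))
  map_mul' := map_mul (algebraMap BS (AA Z3))
  map_zero' := map_zero (algebraMap BS (AA Z3))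
  map_add' := map_add (algebraMap BS (AA Z3))
  commutes' r := (IsScalarTower.algebraMap_apply ℝ BS (AA Z3) r).symm

/-- **the collapse of the symbol** -/
theorem C3_main {J : Z3 → ℕ → ℂ} (ρ τ : BS)
    (ht : m3 1 0 0 + cs ρ * m3 0 1 0 + cs τ * m3 0 0 1 ∈ NI J)
    (ht' : m3 (-1) 0 0 + cs ρ * m3 0 (-1) 0 + cs τ * m3 0 0 (-1) ∈ NI J) (F : Polynomial ℝ) :
    Tendsto (fun n => EE J (io d3 (PP ρ F)) n -
      ((F0 (ρ.1 n) (τ.1 n ^ 2) * F.eval (τ.1 n ^ 2) : ℝ) : ℂ) * J (0, 0, 0) n) atTop (𝓝 0) := by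
  obtain ⟨X, hX⟩ : ∃ X : BS, X = F0 ρ (τ ^ 2) * Polynomial.aeval (τ ^ 2) F := ⟨_, rfl⟩
  have hXn : ∀ n, X.1 n = F0 (ρ.1 n) (τ.1 n ^ 2) * F.eval (τ.1 n ^ 2) := by
    intro n
    have e1 : X.1 n = evn n X := rfl
    rw [e1, hX, map_mul, map_F0, ← Polynomial.aeval_algHom_apply, map_pow]
    rfl
  have key : Tendsto (EE J (io d3 (PP ρ F) - cs X * 1)) atTop (𝓝 0) := by
    obtain ⟨Q, hQ⟩ : ∃ Q : AA Z3 →ₐ[ℝ] (AA Z3 ⧸ NI J), Q = Ideal.Quotient.mkₐ ℝ (NI J) := ⟨_, rfl⟩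
    refine NI_tendsto (Ideal.Quotient.eq_zero_iff_mem.1 ?_)
    have qt : Q (m3 1 0 0 + cs ρ * m3 0 1 0 + cs τ * m3 0 0 1) = 0 := by
      rw [hQ]; exact Ideal.Quotient.eq_zero_iff_mem.2 ht
    have qt' : Q (m3 (-1) 0 0 + cs ρ * m3 0 (-1) 0 + cs τ * m3 0 0 (-1)) = 0 := by
      rw [hQ]; exact Ideal.Quotient.eq_zero_iff_mem.2 ht'
    show Ideal.Quotient.mkₐ ℝ (NI J) (io d3 (PP ρ F) - cs X * 1) = 0
    rw [← hQ]
    obtain ⟨c, hc⟩ : ∃ c, c = Q (cs ρ) := ⟨_, rfl⟩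
    obtain ⟨t, htt⟩ : ∃ c, c = Q (cs τ) := ⟨_, rfl⟩
    obtain ⟨z, hz⟩ : ∃ c, c = Q (m3 1 0 0) := ⟨_, rfl⟩
    obtain ⟨w, hw⟩ : ∃ c, c = Q (m3 0 1 0) := ⟨_, rfl⟩
    obtain ⟨u, hu⟩ : ∃ c, c = Q (m3 0 0 1) := ⟨_, rfl⟩
    obtain ⟨z', hz'⟩ : ∃ c, c = Q (m3 (-1) 0 0) := ⟨_, rfl⟩
    obtain ⟨w', hw'⟩ : ∃ c, c = Q (m3 0 (-1) 0) := ⟨_, rfl⟩
    obtain ⟨u', hu'⟩ : ∃ c, c = Q (m3 0 0 (-1)) := ⟨_, rfl⟩
    have i1 : z * z' = 1 := by rw [hz, hz', ← map_mul, m3_mul]; exact map_one Q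
    have i2 : w * w' = 1 := by rw [hw, hw', ← map_mul, m3_mul]; exact map_one Q
    have i3 : u * u' = 1 := by rw [hu, hu', ← map_mul, m3_mul]; exact map_one Q
    have s : z + c * w + t * u = 0 := by
      rw [← qt, hz, hw, hu, hc, htt]; simp only [map_add, map_mul]
    have s' : z' + c * w' + t * u' = 0 := by
      rw [← qt', hz', hw', hu', hc, htt]; simp only [map_add, map_mul]
    have er : Q (io d3 (rr ρ)) = t ^ 2 := by
      have h1 : io d3 (single 1 1 : AA ℤ) = m3 1 0 0 * m3 0 (-1) 0 := by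
        rw [io_single, m3_mul]; simp [d3, m3]
      have h2 : io d3 (single (-1) 1 : AA ℤ) = m3 (-1) 0 0 * m3 0 1 0 := by
        rw [io_single, m3_mul]; simp [d3, m3]
      unfold rr
      simp only [map_add, map_mul, map_one, map_pow, io_cs, h1, h2]
      rw [← hc, ← hz, ← hw', ← hz', ← hw]
      linear_combination (-1 : AA Z3 ⧸ NI J) * i1 - c ^ 2 * i2 + t ^ 2 * i3 +
        (z' + c * w') * s - t * u * s'
    have eX : Q (cs X) = F0 c (t ^ 2) * Polynomial.aeval (t ^ 2) F := by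
      have : (cs X : AA Z3) = csA X := rfl
      rw [this, hX, map_mul, map_F0, ← Polynomial.aeval_algHom_apply, map_mul, map_F0,
        ← Polynomial.aeval_algHom_apply, map_pow, map_pow]
      have a1 : Q (csA ρ) = c := hc.symm
      have a2 : Q (csA τ) = t := htt.symm
      rw [a1, a2]
    unfold PP
    rw [map_sub, map_mul, map_mul, map_mul, map_one, mul_one, eX, map_F0, map_F0, io_cs, ← hc,
      ← Polynomial.aeval_algHom_apply, ← Polynomial.aeval_algHom_apply, er, sub_self]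
  refine key.congr fun n => ?_
  rw [EE_sub, EE_cs3, hXn]
  congr 2
  have : (1 : AA Z3) = single (0, 0, 0) 1 := rfl
  rw [this, EE_single, BS.one_ap, ofReal_one, one_mul]

/-- **cubic moments of the symbol** -/
theorem C3_col (H : SY B Complex.im h w) (H' : SY B Complex.im κ v) (H'' : SY B Complex.im ε g)
    (hBU : B ⊆ UH) {C : ℝ} (hC : ∀ n, h n ≤ C * κ n) (h0 : EX B h w (w 0))
    (k0 : EX B κ v (v 0)) {ψ : ℂ → ℝ} (hψ : TF B ψ) (ρ τ : BS) (hρ : ∀ n, ρ.1 n = h n / κ n)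
    (hτ : ∀ n, τ.1 n = h n / ε n) (F : Polynomial ℝ) :
    Tendsto (fun n => EE (C3 w v g ψ) (io d3 (PP ρ F)) n -
      ((F0 (ρ.1 n) (τ.1 n ^ 2) * F.eval (τ.1 n ^ 2) : ℝ) : ℂ) * C3 w v g ψ (0, 0, 0) n) atTop
      (𝓝 0) := by
  refine C3_main ρ τ (mem_NI fun q => ?_) (mem_NI fun q => ?_) F
  · obtain ⟨a, b, c⟩ := q
    refine (C3_T H H' H'' hBU hC h0 k0 hψ a b c).congr fun n => ?_
    rw [add_mul, add_mul, mul_assoc, mul_assoc, EE_add, EE_add, EE_cs3, EE_cs3, EE_m3, EE_m3,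
      EE_m3, hρ, hτ]
    simp only [zero_add]
    rw [add_comm 1 a, add_comm 1 b, add_comm 1 c]
  · obtain ⟨a, b, c⟩ := q
    refine (C3_T' H H' H'' hBU hC h0 k0 hψ a b c).congr fun n => ?_
    rw [add_mul, add_mul, mul_assoc, mul_assoc, EE_add, EE_add, EE_cs3, EE_cs3, EE_m3, EE_m3,
      EE_m3, hρ, hτ]
    simp only [zero_add]

/-- the constant of the collapse for a third system of much larger frequency -/
def GI (ρ σ : ℝ) : ℝ := (1 - 2 * (1 + ρ ^ 2) * σ ^ 2 + (1 - ρ ^ 2) ^ 2 * σ ^ 4) *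
  (1 - (1 - ρ ^ 2) ^ 2 * σ ^ 4)

/-- **the collapse of the symbol, third frequency much larger** -/
theorem C3_maini {J : Z3 → ℕ → ℂ} (ρ σ : BS)
    (ht : cs σ * (m3 1 0 0 + cs ρ * m3 0 1 0) + m3 0 0 1 ∈ NI J)
    (ht' : cs σ * (m3 (-1) 0 0 + cs ρ * m3 0 (-1) 0) + m3 0 0 (-1) ∈ NI J) :
    Tendsto (fun n => ((σ.1 n ^ 8 : ℝ) : ℂ) * EE J (io d3 (PP ρ 1)) n -
      ((GI (ρ.1 n) (σ.1 n) : ℝ) : ℂ) * J (0, 0, 0) n) atTop (𝓝 0) := by
  obtain ⟨X, hX⟩ : ∃ X : BS, X = (1 - 2 * (1 + ρ ^ 2) * σ ^ 2 + (1 - ρ ^ 2) ^ 2 * σ ^ 4) *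
    (1 - (1 - ρ ^ 2) ^ 2 * σ ^ 4) := ⟨_, rfl⟩
  have hXn : ∀ n, X.1 n = GI (ρ.1 n) (σ.1 n) := by
    intro n
    have e1 : X.1 n = evn n X := rfl
    rw [e1, hX]
    simp only [map_mul, map_sub, map_add, map_pow, map_one, map_ofNat]
    rfl
  have hσ : ∀ n, (σ ^ 8).1 n = σ.1 n ^ 8 := by
    intro n
    have e1 : (σ ^ 8).1 n = evn n (σ ^ 8) := rfl
    rw [e1, map_pow]; rfl
  have key : Tendsto (EE J (cs (σ ^ 8) * io d3 (PP ρ 1) - cs X * 1)) atTop (𝓝 0) := by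
    obtain ⟨Q, hQ⟩ : ∃ Q : AA Z3 →ₐ[ℝ] (AA Z3 ⧸ NI J), Q = Ideal.Quotient.mkₐ ℝ (NI J) := ⟨_, rfl⟩
    refine NI_tendsto (Ideal.Quotient.eq_zero_iff_mem.1 ?_)
    have qt : Q (cs σ * (m3 1 0 0 + cs ρ * m3 0 1 0) + m3 0 0 1) = 0 := by
      rw [hQ]; exact Ideal.Quotient.eq_zero_iff_mem.2 ht
    have qt' : Q (cs σ * (m3 (-1) 0 0 + cs ρ * m3 0 (-1) 0) + m3 0 0 (-1)) = 0 := by
      rw [hQ]; exact Ideal.Quotient.eq_zero_iff_mem.2 ht'
    show Ideal.Quotient.mkₐ ℝ (NI J) (cs (σ ^ 8) * io d3 (PP ρ 1) - cs X * 1) = 0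
    rw [← hQ]
    obtain ⟨c, hc⟩ : ∃ c, c = Q (cs ρ) := ⟨_, rfl⟩
    obtain ⟨t, htt⟩ : ∃ c, c = Q (cs σ) := ⟨_, rfl⟩
    obtain ⟨z, hz⟩ : ∃ c, c = Q (m3 1 0 0) := ⟨_, rfl⟩
    obtain ⟨w, hw⟩ : ∃ c, c = Q (m3 0 1 0) := ⟨_, rfl⟩
    obtain ⟨u, hu⟩ : ∃ c, c = Q (m3 0 0 1) := ⟨_, rfl⟩
    obtain ⟨z', hz'⟩ : ∃ c, c = Q (m3 (-1) 0 0) := ⟨_, rfl⟩
    obtain ⟨w', hw'⟩ : ∃ c, c = Q (m3 0 (-1) 0) := ⟨_, rfl⟩
    obtain ⟨u', hu'⟩ : ∃ c, c = Q (m3 0 0 (-1)) := ⟨_, rfl⟩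
    have i1 : z * z' = 1 := by rw [hz, hz', ← map_mul, m3_mul]; exact map_one Q
    have i2 : w * w' = 1 := by rw [hw, hw', ← map_mul, m3_mul]; exact map_one Q
    have i3 : u * u' = 1 := by rw [hu, hu', ← map_mul, m3_mul]; exact map_one Q
    have s : t * (z + c * w) + u = 0 := by
      rw [← qt, hz, hw, hu, hc, htt]; simp only [map_add, map_mul]
    have s' : t * (z' + c * w') + u' = 0 := by
      rw [← qt', hz', hw', hu', hc, htt]; simp only [map_add, map_mul]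
    obtain ⟨R, hR⟩ : ∃ R, R = (z + c * w) * (z' + c * w') := ⟨_, rfl⟩
    have tR : t ^ 2 * R = 1 := by
      rw [hR]
      linear_combination i3 + (t * (z' + c * w')) * s - u * s'
    have er : Q (io d3 (rr ρ)) = R := by
      have h1 : io d3 (single 1 1 : AA ℤ) = m3 1 0 0 * m3 0 (-1) 0 := by
        rw [io_single, m3_mul]; simp [d3, m3]
      have h2 : io d3 (single (-1) 1 : AA ℤ) = m3 (-1) 0 0 * m3 0 1 0 := by
        rw [io_single, m3_mul]; simp [d3, m3]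
      unfold rr
      simp only [map_add, map_mul, map_one, map_pow, io_cs, h1, h2]
      rw [← hc, ← hz, ← hw', ← hz', ← hw, hR]
      linear_combination (-1 : AA Z3 ⧸ NI J) * i1 - c ^ 2 * i2
    have eX : Q (cs X) = (1 - 2 * (1 + c ^ 2) * t ^ 2 + (1 - c ^ 2) ^ 2 * t ^ 4) *
        (1 - (1 - c ^ 2) ^ 2 * t ^ 4) := by
      have : (cs X : AA Z3) = csA X := rfl
      rw [this, hX]
      simp only [map_mul, map_sub, map_add, map_pow, map_one, map_ofNat]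
      have a1 : Q (csA ρ) = c := hc.symm
      have a2 : Q (csA σ) = t := htt.symm
      rw [a1, a2]
    have e8 : Q (cs (σ ^ 8)) = t ^ 8 := by
      have : (cs (σ ^ 8) : AA Z3) = csA (σ ^ 8) := rfl
      rw [this, map_pow, map_pow]
      have a2 : Q (csA σ) = t := htt.symm
      rw [a2]
    have q1 : Q (1 : AA Z3) = 1 := map_one Q
    have q2 : Q (io d3 (Polynomial.aeval (rr ρ) (1 : Polynomial ℝ))) = 1 := by
      rw [map_one, map_one, map_one]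
    unfold PP
    rw [map_sub, map_mul, map_mul, map_mul, map_mul, q1, mul_one, q2, mul_one, eX, e8, map_F0,
      map_F0, io_cs, ← hc, er]
    unfold F0
    linear_combination ((t ^ 2 * R + 1) * (t ^ 4 * (R ^ 2 - (1 - c ^ 2) ^ 2)) -
      2 * (1 + c ^ 2) * t ^ 2 * (t ^ 4 * (R ^ 2 - (1 - c ^ 2) ^ 2)) +
      (1 - 2 * (1 + c ^ 2) * t ^ 2 + (1 - c ^ 2) ^ 2 * t ^ 4) * (t ^ 2 * R + 1)) * tR
  refine key.congr fun n => ?_
  rw [EE_sub, EE_cs3, EE_cs3, hXn, hσ]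
  congr 2
  have : (1 : AA Z3) = single (0, 0, 0) 1 := rfl
  rw [this, EE_single, BS.one_ap, ofReal_one, one_mul]

lemma bdd_mul {s : ℕ → ℝ} {C : ℝ} (hs : ∀ n, |s n| ≤ C) {u : ℕ → ℂ}
    (hu : Tendsto u atTop (𝓝 0)) : Tendsto (fun n => ((s n : ℝ) : ℂ) * u n) atTop (𝓝 0) :=
  bnd_null (r := ⟨s, C, hs⟩) hu

/-- **cubic moments of the symbol, third frequency much larger** -/
theorem C3_coli (H : SY B Complex.im h w) (H' : SY B Complex.im κ v) (H'' : SY B Complex.im ε g)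
    (hBU : B ⊆ UH) {C : ℝ} (hC : ∀ n, h n ≤ C * κ n) (h0 : EX B h w (w 0))
    (k0 : EX B κ v (v 0)) {ψ : ℂ → ℝ} (hψ : TF B ψ) (ρ σ : BS) (hρ : ∀ n, ρ.1 n = h n / κ n)
    (hσ : ∀ n, σ.1 n = ε n / h n) :
    Tendsto (fun n => ((σ.1 n ^ 8 : ℝ) : ℂ) * EE (C3 w v g ψ) (io d3 (PP ρ 1)) n -
      ((GI (ρ.1 n) (σ.1 n) : ℝ) : ℂ) * C3 w v g ψ (0, 0, 0) n) atTop (𝓝 0) := by
  obtain ⟨D, hD⟩ := σ.2
  have hσ' : ∀ n, |σ.1 n| ≤ D := hD
  have one : ∀ n, ((σ.1 n : ℝ) : ℂ) * ((h n / ε n : ℝ) : ℂ) = 1 := by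
    intro n
    rw [hσ, ← ofReal_mul]
    have a := (H.hpos n).ne'
    have b := (H''.hpos n).ne'
    have : ε n / h n * (h n / ε n) = 1 := by field_simp
    rw [this, ofReal_one]
  refine C3_maini ρ σ (mem_NI fun q => ?_) (mem_NI fun q => ?_)
  · obtain ⟨a, b, c⟩ := q
    refine (bdd_mul hσ' (C3_T H H' H'' hBU hC h0 k0 hψ a b c)).congr fun n => ?_
    rw [add_mul, mul_assoc, add_mul, mul_assoc, EE_add, EE_cs3, EE_add, EE_cs3, EE_m3, EE_m3,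
      EE_m3, hρ]
    simp only [zero_add]
    rw [add_comm 1 a, add_comm 1 b, add_comm 1 c]
    linear_combination (C3 w v g ψ (a, b, c + 1) n) * one n
  · obtain ⟨a, b, c⟩ := q
    refine (bdd_mul hσ' (C3_T' H H' H'' hBU hC h0 k0 hψ a b c)).congr fun n => ?_
    rw [add_mul, mul_assoc, add_mul, mul_assoc, EE_add, EE_cs3, EE_add, EE_cs3, EE_m3, EE_m3,
      EE_m3, hρ]
    simp only [zero_add]
    linear_combination (C3 w v g ψ (a, b, -1 + c) n) * one n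

end

end Pool.Agent.J4H76.TP
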