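import Pool.Agent.J4H76.TP.Quart

/-! Evaluation on the unit circle, and the mean squares. -/
set_option autoImplicit false
open Filter Topology MeasureTheory

namespace Pool.Agent.J4H76.TP

noncomputable section

open AddMonoidAlgebra (single)

/-- the value at the index `n` -/
def chat (n : ℕ) : BS →ₐ[ℝ] ℂ where
  toFun r := ((r.1 n : ℝ) : ℂ)
  map_one' := by rw [BS.one_ap]; simp
  map_mul' r s := by rw [BS.mul_ap]; push_cast; rfl
  map_zero' := by rw [BS.zero_ap]; simp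
  map_add' r s := by rw [BS.add_ap]; push_cast; rfl
  commutes' r := by rw [BS.map_ap]; rfl

/-- evaluation at `ζ` -/
def ez (ζ : ℂˣ) (n : ℕ) : AA ℤ →ₐ[ℝ] ℂ :=
  AddMonoidAlgebra.liftNCAlgHom (chat n) ((Units.coeHom ℂ).comp (zpowersHom ℂˣ ζ))
    (fun _ _ => Commute.all _ _)

lemma ez_single (ζ : ℂˣ) (n : ℕ) (k : ℤ) (r : BS) :
    ez ζ n (single k r) = ((r.1 n : ℝ) : ℂ) * ((ζ ^ k : ℂˣ) : ℂ) := by
  unfold ez
  rw [AddMonoidAlgebra.coe_liftNCAlgHom, AddMonoidAlgebra.liftNC_single]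
  rfl

lemma ez_EE (ζ : ℂˣ) (n : ℕ) (f : AA ℤ) :
    ez ζ n f = EE (fun k _ => ((ζ ^ k : ℂˣ) : ℂ)) f n := by
  induction f using AddMonoidAlgebra.induction_linear with
  | zero => rw [map_zero, EE_zero]
  | add f g hf hg => rw [map_add, EE_add, hf, hg]
  | single a s => rw [ez_single, EE_single]

/-- `e^{iθ}` -/
def ex (θ : ℝ) : ℂˣ := Units.mk0 (Complex.exp (θ * Complex.I)) (Complex.exp_ne_zero _)

lemma ex_zpow (θ : ℝ) (k : ℤ) : ((ex θ ^ k : ℂˣ) : ℂ) = Complex.exp ((k * θ : ℝ) * Complex.I) := by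
  unfold ex
  rw [Units.val_zpow_eq_zpow_val, Units.val_mk0, ← Complex.exp_int_mul]
  congr 1; push_cast; ring

lemma int_exp (k : ℤ) : ∫ θ in (0 : ℝ)..(2 * Real.pi), Complex.exp ((k * θ : ℝ) * Complex.I) =
    if k = 0 then (2 * Real.pi : ℂ) else 0 := by
  by_cases hk : k = 0
  · subst hk
    simp
  · rw [if_neg hk]
    have e1 : ∀ θ : ℝ, Complex.exp ((k * θ : ℝ) * Complex.I) =
        Complex.exp ((k * Complex.I) * θ) := by
      intro θ; congr 1; push_cast; ring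
    simp only [e1]
    rw [integral_exp_mul_complex (mul_ne_zero (by exact_mod_cast hk) Complex.I_ne_zero)]
    have e2 : Complex.exp (k * Complex.I * ((2 * Real.pi : ℝ) : ℂ)) = 1 := by
      rw [Complex.exp_eq_one_iff]
      exact ⟨k, by push_cast; ring⟩
    rw [e2]
    simp

/-- the sum of the squares of the coefficients -/
def N2 (f : AA ℤ) (n : ℕ) : ℝ := ∑ k ∈ f.coeff.support, (f.coeff k).1 n ^ 2

lemma N2_nonneg (f : AA ℤ) (n : ℕ) : 0 ≤ N2 f n := Finset.sum_nonneg fun _ _ => sq_nonneg _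

/-- Parseval -/
lemma pars (f : AA ℤ) (n : ℕ) : ((N2 f n : ℝ) : ℂ) = 1 / (2 * Real.pi) *
    ∫ θ in (0 : ℝ)..(2 * Real.pi), ez (ex θ) n f * ez (ex (-θ)) n f := by
  have e1 : ∀ θ : ℝ, ez (ex θ) n f * ez (ex (-θ)) n f = ∑ k ∈ f.coeff.support,
      ∑ l ∈ f.coeff.support, (((f.coeff k).1 n : ℝ) : ℂ) * (((f.coeff l).1 n : ℝ) : ℂ) *
        Complex.exp (((k - l : ℤ) * θ : ℝ) * Complex.I) := by
    intro θ
    rw [ez_EE, ez_EE, EE, EE, Finsupp.sum, Finsupp.sum, Finset.sum_mul_sum]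
    refine Finset.sum_congr rfl fun k _ => Finset.sum_congr rfl fun l _ => ?_
    rw [ex_zpow, ex_zpow]
    have : Complex.exp (((k - l : ℤ) * θ : ℝ) * Complex.I) =
        Complex.exp ((k * θ : ℝ) * Complex.I) * Complex.exp ((l * (-θ) : ℝ) * Complex.I) := by
      rw [← Complex.exp_add]; congr 1; push_cast; ring
    rw [this]; ring
  have ci : ∀ m : ℤ, Continuous (fun θ : ℝ => Complex.exp ((m * θ : ℝ) * Complex.I)) := by
    intro m; fun_prop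
  simp only [e1]
  rw [intervalIntegral.integral_finsetSum]
  · have e2 : ∀ k ∈ f.coeff.support, ∫ θ in (0 : ℝ)..(2 * Real.pi), ∑ l ∈ f.coeff.support,
        (((f.coeff k).1 n : ℝ) : ℂ) * (((f.coeff l).1 n : ℝ) : ℂ) *
        Complex.exp (((k - l : ℤ) * θ : ℝ) * Complex.I) =
        (2 * Real.pi) * (((f.coeff k).1 n : ℝ) : ℂ) ^ 2 := by
      intro k hk
      rw [intervalIntegral.integral_finsetSum]
      · rw [Finset.sum_eq_single k]
        · rw [intervalIntegral.integral_const_mul, int_exp]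
          simp only [sub_self, if_true]; ring
        · intro l _ hl
          rw [intervalIntegral.integral_const_mul, int_exp, if_neg (by omega), mul_zero]
        · intro h; exact absurd hk h
      · intro l _
        exact ((ci _).const_mul _ |>.intervalIntegrable _ _) |> fun h => h
    rw [Finset.sum_congr rfl e2, ← Finset.mul_sum, N2]
    push_cast
    have : (Real.pi : ℂ) ≠ 0 := by exact_mod_cast Real.pi_ne_zero
    field_simp
  · intro k _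
    refine Continuous.intervalIntegrable ?_ _ _
    exact continuous_finset_sum _ fun l _ => (ci _).const_mul _

/-- real values -/
lemma N2_real {f : AA ℤ} {n : ℕ} {g : ℝ → ℝ} (h : ∀ θ, ez (ex θ) n f = ((g θ : ℝ) : ℂ))
    (he : ∀ θ, g (-θ) = g θ) :
    N2 f n = 1 / (2 * Real.pi) * ∫ θ in (0 : ℝ)..(2 * Real.pi), g θ ^ 2 := by
  have h1 := pars f n
  have e : ∀ θ, ez (ex θ) n f * ez (ex (-θ)) n f = ((g θ ^ 2 : ℝ) : ℂ) := by
    intro θ; rw [h, h, he]; push_cast; ring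
  simp only [e] at h1
  rw [intervalIntegral.integral_ofReal] at h1
  exact_mod_cast h1

/-- `1 + ρ² + 2 ρ cos θ` -/
def Rf (ρ θ : ℝ) : ℝ := 1 + ρ ^ 2 + 2 * ρ * Real.cos θ

def Pf (ρ : ℝ) (F : Polynomial ℝ) (θ : ℝ) : ℝ := F0 ρ (Rf ρ θ) * F.eval (Rf ρ θ)

def Xf (ρ θ : ℝ) : ℝ := ρ ^ 2 * (2 + 2 * Real.cos θ)

def Bf (ρ : ℝ) (F : Polynomial ℝ) (θ : ℝ) : ℝ := Xf ρ θ * (4 * ρ ^ 2 - Xf ρ θ) *
  KK (2 * (1 + ρ ^ 2) - Xf ρ θ) ((1 - ρ ^ 2) ^ 2) (Polynomial.X ^ 4 * F ^ 2)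

lemma ez_cs (ζ : ℂˣ) (n : ℕ) (ρ : BS) : ez ζ n (cs ρ) = ((ρ.1 n : ℝ) : ℂ) := by
  rw [cs_eq, ez_single]; simp

lemma ez_y (θ : ℝ) (n : ℕ) : ez (ex θ) n (single 1 1) + ez (ex θ) n (single (-1) 1) =
    ((2 * Real.cos θ : ℝ) : ℂ) := by
  rw [ez_single, ez_single, ex_zpow, ex_zpow, BS.one_ap]
  push_cast
  rw [Complex.two_cos, one_mul, one_mul]
  congr 2 <;> ring_nf

lemma ez_rr (ρ : BS) (θ : ℝ) (n : ℕ) : ez (ex θ) n (rr ρ) = ((Rf (ρ.1 n) θ : ℝ) : ℂ) := by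
  unfold rr Rf
  rw [map_add, map_add, map_mul, map_add, ez_y, map_one, map_pow, ez_cs]
  push_cast; ring

lemma ez_PP (ρ : BS) (F : Polynomial ℝ) (θ : ℝ) (n : ℕ) :
    ez (ex θ) n (PP ρ F) = ((Pf (ρ.1 n) F θ : ℝ) : ℂ) := by
  unfold PP Pf
  rw [map_mul, map_F0, ← Polynomial.aeval_algHom_apply, ez_rr, ez_cs]
  have h1 := map_F0 Complex.ofRealAm (ρ.1 n) (Rf (ρ.1 n) θ)
  have h2 := Polynomial.aeval_algHom_apply Complex.ofRealAm (Rf (ρ.1 n) θ) F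
  simp only [Complex.ofRealAm_coe] at h1 h2
  rw [← h1, h2, Polynomial.coe_aeval_eq_eval]
  push_cast; rfl

lemma ez_xw (ρ : BS) (θ : ℝ) (n : ℕ) : ez (ex θ) n (xw ρ) = ((Xf (ρ.1 n) θ : ℝ) : ℂ) := by
  unfold xw Xf
  rw [map_mul, map_add, map_add, add_assoc, ez_y, map_ofNat, map_pow, ez_cs]
  push_cast; ring

lemma ez_B1 (ρ : BS) (F : Polynomial ℝ) (θ : ℝ) (n : ℕ) :
    ez (ex θ) n (B1 ρ F) = ((Bf (ρ.1 n) F θ : ℝ) : ℂ) := by
  unfold B1 Bf
  rw [map_mul, map_mul, map_sub, KK_map, map_sub, map_mul, map_mul, map_add, map_pow, map_pow,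
    map_sub, map_pow, map_ofNat, map_ofNat, map_one, ez_xw, ez_cs]
  have h1 := KK_map Complex.ofRealAm (2 * (1 + ρ.1 n ^ 2) - Xf (ρ.1 n) θ)
    ((1 - ρ.1 n ^ 2) ^ 2) (Polynomial.X ^ 4 * F ^ 2)
  simp only [Complex.ofRealAm_coe] at h1
  push_cast at h1 ⊢
  rw [h1]

end

end Pool.Agent.J4H76.TP
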