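import Pool.Agent.J4H76.TP.Lim
import Pool.Agent.Y265.HY.PS2

/-! Second moments of quadratic expressions of one form whose symbol vanishes at `0` and `π`. -/
set_option autoImplicit false
open MeasureTheory Filter Topology Complex Set
open scoped ContDiff Real Manifold

namespace Pool.Agent.J4H76.TP

open Pool.Agent.W745.RW Pool.Agent.TH294.RS Pool.Agent.Y265.HY
open AddMonoidAlgebra (single)

noncomputable section

variable {B : Set ℂ} {h : ℕ → ℝ} {w : ℤ → ℕ → ℂ → ℂ}

/-- coefficient at `k`, index `n` -/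
def co (S : AA ℤ) (n : ℕ) (k : ℤ) : ℂ := (((S.coeff k).1 n : ℝ) : ℂ)

lemma co_zero {S : AA ℤ} {n : ℕ} {k : ℤ} (h : k ∉ S.coeff.support) : co S n k = 0 := by
  unfold co
  rw [Finsupp.notMem_support_iff.1 h, BS.zero_ap, ofReal_zero]

/-- the quadratic expression with symbol `S` -/
def sf (w : ℤ → ℕ → ℂ → ℂ) (S : AA ℤ) (n : ℕ) (z : ℂ) : ℂ :=
  ∑ k ∈ S.coeff.support, co S n k * (w k n z * w (-k) n z)

lemma ex_pi (k : ℤ) : ((ex Real.pi ^ k : ℂˣ) : ℂ) = (-1) ^ k.natAbs := by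
  rw [ex_zpow]
  have e : Complex.exp (((k : ℝ) * Real.pi : ℝ) * Complex.I) =
      Complex.exp (Real.pi * Complex.I) ^ k := by
    rw [← Complex.exp_int_mul]; congr 1; push_cast; ring
  rw [e, Complex.exp_pi_mul_I]
  rcases Int.natAbs_eq k with h | h
  · conv_lhs => rw [h]
    rw [zpow_natCast]
  · conv_lhs => rw [h]
    rw [zpow_neg, zpow_natCast, ← inv_pow, inv_neg_one]

lemma ex_0 (k : ℤ) : ((ex 0 ^ k : ℂˣ) : ℂ) = 1 := by
  rw [ex_zpow]; simp

lemma sum_0 (S : AA ℤ) (n : ℕ) : ez (ex 0) n S = ∑ k ∈ S.coeff.support, co S n k := by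
  rw [ez_EE, EE, Finsupp.sum]
  refine Finset.sum_congr rfl fun k _ => ?_
  rw [ex_0, mul_one]; rfl

lemma sum_pi (S : AA ℤ) (n : ℕ) : ez (ex Real.pi) n S =
    ∑ k ∈ S.coeff.support, co S n k * (-1) ^ k.natAbs := by
  rw [ez_EE, EE, Finsupp.sum]
  refine Finset.sum_congr rfl fun k _ => ?_
  rw [ex_pi]; rfl

lemma sgn2 (k : ℤ) : (-1 : ℂ) ^ k.natAbs * (-1) ^ k.natAbs = 1 := by
  rw [← mul_pow]; norm_num

lemma sum_pt (S : AA ℤ) (n : ℕ) (m : ℤ) :
    ∑ k ∈ S.coeff.support, co S n k * (if k = m then 1 else 0) = co S n m := by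
  by_cases hm : m ∈ S.coeff.support
  · rw [Finset.sum_eq_single m]
    · simp
    · intro b _ hb; rw [if_neg hb, mul_zero]
    · intro h; exact absurd hm h
  · rw [co_zero hm]
    refine Finset.sum_eq_zero fun k hk => ?_
    rw [if_neg (fun h : k = m => hm (h ▸ hk)), mul_zero]

lemma eps_val (j k : ℤ) : eps j (-j) k (-k) =
    1 / 3 + 2 / 3 * ((-1) ^ j.natAbs * (-1) ^ k.natAbs) := by
  have par : ∀ m : ℤ, (-1 : ℂ) ^ m.natAbs = if m % 2 = 0 then 1 else -1 := by
    intro m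
    by_cases h : m % 2 = 0
    · rw [if_pos h, (Int.natAbs_even.2 (Int.even_iff.2 h)).neg_one_pow]
    · rw [if_neg h, (Int.natAbs_odd.2 (Int.odd_iff.2 (by omega))).neg_one_pow]
  rw [par, par]
  unfold eps
  rcases Int.emod_two_eq_zero_or_one j with hj | hj <;>
  rcases Int.emod_two_eq_zero_or_one k with hk | hk
  · rw [if_pos (by omega), if_pos hj, if_pos hk]; norm_num
  · rw [if_neg (by omega), if_pos hj, if_neg (by omega)]; norm_num
  · rw [if_neg (by omega), if_neg (by omega), if_pos hk]; norm_num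
  · rw [if_pos (by omega), if_neg (by omega), if_neg (by omega)]; norm_num

lemma eps_sum {S : AA ℤ} {n : ℕ} (h1 : ez (ex 0) n S = 0) (h2 : ez (ex Real.pi) n S = 0) :
    ∑ j ∈ S.coeff.support, ∑ k ∈ S.coeff.support, co S n j * (co S n k * eps j (-j) k (-k)) = 0 := by
  rw [sum_0] at h1
  rw [sum_pi] at h2
  have e : ∑ j ∈ S.coeff.support, ∑ k ∈ S.coeff.support,
      co S n j * (co S n k * eps j (-j) k (-k)) =
      1 / 3 * ((∑ j ∈ S.coeff.support, co S n j) * (∑ k ∈ S.coeff.support, co S n k)) +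
      2 / 3 * ((∑ j ∈ S.coeff.support, co S n j * (-1) ^ j.natAbs) *
        (∑ k ∈ S.coeff.support, co S n k * (-1) ^ k.natAbs)) := by
    rw [Finset.sum_mul_sum, Finset.sum_mul_sum, Finset.mul_sum, Finset.mul_sum,
      ← Finset.sum_add_distrib]
    refine Finset.sum_congr rfl fun j _ => ?_
    rw [Finset.mul_sum, Finset.mul_sum, ← Finset.sum_add_distrib]
    refine Finset.sum_congr rfl fun k _ => ?_
    rw [eps_val]; ring
  rw [e, h1, h2]; ring

lemma GG_val (j k : ℤ) : GG j (-j) k (-k) = (-1) ^ j.natAbs * (-1) ^ k.natAbs +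
    (if k = -j then 1 else 0) + (if k = j then 1 else 0) := by
  unfold GG CC
  have a1 : j + -j = 0 := by ring
  have a2 : k + -k = 0 := by ring
  rw [if_pos a1, if_pos a2]
  by_cases h1 : k = -j
  · subst h1
    rw [if_pos (by ring), if_pos (by ring), if_pos rfl]
    by_cases h2 : -j = j
    · rw [if_pos h2, if_pos (by omega), if_pos (by omega), Int.natAbs_neg, sgn2]
    · rw [if_neg h2, if_neg (by omega), if_neg (by omega), Int.natAbs_neg, sgn2]; ring
  · rw [if_neg (by omega), if_neg (by omega), if_neg h1]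
    by_cases h2 : k = j
    · rw [if_pos h2, if_pos (by omega), if_pos (by omega), Int.natAbs_neg, sgn2]; ring
    · rw [if_neg h2, if_neg (by omega), if_neg (by omega)]; ring

/-- the Gaussian part -/
def gp (S : AA ℤ) (n : ℕ) : ℝ := N2 S n + ∑ j ∈ S.coeff.support, (S.coeff j).1 n * (S.coeff (-j)).1 n

lemma GG_sum {S : AA ℤ} {n : ℕ} (h2 : ez (ex Real.pi) n S = 0) :
    ∑ j ∈ S.coeff.support, ∑ k ∈ S.coeff.support, co S n j * (co S n k * GG j (-j) k (-k)) =
      ((gp S n : ℝ) : ℂ) := by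
  rw [sum_pi] at h2
  have e : ∀ j ∈ S.coeff.support, ∑ k ∈ S.coeff.support,
      co S n j * (co S n k * GG j (-j) k (-k)) = co S n j * (-1) ^ j.natAbs *
        (∑ k ∈ S.coeff.support, co S n k * (-1) ^ k.natAbs) + co S n j * co S n (-j) +
        co S n j * co S n j := by
    intro j _
    rw [← sum_pt S n (-j), mul_comm (co S n j) (∑ k ∈ _, _)]
    nth_rewrite 5 [← sum_pt S n j]
    rw [Finset.mul_sum, Finset.sum_mul, Finset.mul_sum, ← Finset.sum_add_distrib,
      ← Finset.sum_add_distrib]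
    refine Finset.sum_congr rfl fun k _ => ?_
    rw [GG_val]; ring
  rw [Finset.sum_congr rfl e, h2]
  simp only [mul_zero, zero_add]
  rw [Finset.sum_add_distrib, gp, N2]
  push_cast
  rw [add_comm]
  congr 1
  refine Finset.sum_congr rfl fun k _ => ?_
  unfold co; ring

lemma gp_le (S : AA ℤ) (n : ℕ) : gp S n ≤ 2 * N2 S n := by
  have e1 : ∑ j ∈ S.coeff.support, (S.coeff j).1 n * (S.coeff (-j)).1 n ≤
      ∑ j ∈ S.coeff.support, ((S.coeff j).1 n ^ 2 / 2 + (S.coeff (-j)).1 n ^ 2 / 2) := by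
    refine Finset.sum_le_sum fun j _ => ?_
    nlinarith [sq_nonneg ((S.coeff j).1 n - (S.coeff (-j)).1 n)]
  have e2 : ∑ j ∈ S.coeff.support, (S.coeff (-j)).1 n ^ 2 ≤ N2 S n := by
    unfold N2
    rw [← Finset.sum_filter_add_sum_filter_not S.coeff.support (fun j => -j ∈ S.coeff.support)]
    have z : ∑ j ∈ S.coeff.support.filter (fun j => ¬ -j ∈ S.coeff.support),
        (S.coeff (-j)).1 n ^ 2 = 0 := by
      refine Finset.sum_eq_zero fun j hj => ?_
      rw [Finset.mem_filter] at hj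
      rw [Finsupp.notMem_support_iff.1 hj.2, BS.zero_ap]; ring
    rw [z, add_zero]
    have inj : Set.InjOn (fun j : ℤ => -j) (S.coeff.support.filter (fun j => -j ∈ S.coeff.support)) :=
      fun a _ b _ hab => neg_injective hab
    have im : ∑ j ∈ S.coeff.support.filter (fun j => -j ∈ S.coeff.support),
        (S.coeff (-j)).1 n ^ 2 = ∑ j ∈ (S.coeff.support.filter
          (fun j => -j ∈ S.coeff.support)).image (fun j => -j), (S.coeff j).1 n ^ 2 := by
      rw [Finset.sum_image inj]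
    rw [im]
    refine Finset.sum_le_sum_of_subset_of_nonneg ?_ fun _ _ _ => sq_nonneg _
    intro k hk
    rw [Finset.mem_image] at hk
    obtain ⟨j, hj, rfl⟩ := hk
    exact (Finset.mem_filter.1 hj).2
  have e3 : ∑ j ∈ S.coeff.support, ((S.coeff j).1 n ^ 2 / 2 + (S.coeff (-j)).1 n ^ 2 / 2) =
      N2 S n / 2 + (∑ j ∈ S.coeff.support, (S.coeff (-j)).1 n ^ 2) / 2 := by
    rw [Finset.sum_add_distrib, N2, Finset.sum_div, Finset.sum_div]
  unfold gp
  linarith

lemma sf_cont (H : SY B Complex.im h w) (S : AA ℤ) (n : ℕ) : ContinuousOn (sf w S n) B :=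
  continuousOn_finsetSum _ fun j _ => continuousOn_const.mul
    (((H.bd j).sm n).continuousOn.mul ((H.bd (-j)).sm n).continuousOn)

lemma sf_real (H : SY B Complex.im h w) (S : AA ℤ) (n : ℕ) {z : ℂ} (hz : z ∈ B) :
    ((‖sf w S n z‖ ^ 2 : ℝ) : ℂ) = sf w S n z * sf w S n z := by
  have e : (starRingEnd ℂ) (sf w S n z) = sf w S n z := by
    unfold sf
    rw [map_sum]
    refine Finset.sum_congr rfl fun k _ => ?_
    rw [map_mul, map_mul, H.cj k n z hz, H.cj (-k) n z hz, neg_neg, Int.natAbs_neg]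
    unfold co
    rw [conj_ofReal]
    linear_combination (((S.coeff k).1 n : ℝ) : ℂ) * (w (-k) n z * w k n z) * sgn2 k
  rw [← Complex.normSq_eq_norm_sq, ← Complex.mul_conj, e]

/-- expansion of the second moment -/
lemma sf_exp (H : SY B Complex.im h w) {φ : ℂ → ℝ} (hφ : TF B φ) (S : AA ℤ) (n : ℕ)
    (h2 : ez (ex Real.pi) n S = 0) :
    ((∫ z, φ z * ‖sf w S n z‖ ^ 2 : ℝ) : ℂ) - ((gp S n : ℝ) : ℂ) * ((∫ z, φ z : ℝ) : ℂ) =
      ∑ j ∈ S.coeff.support, ∑ k ∈ S.coeff.support,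
        co S n j * (co S n k * D4 w φ j (-j) k (-k) n) := by
  have c4 : ∀ i j k l : ℤ, Integrable (fun z => (φ z : ℂ) * F4 w i j k l n z) := fun i j k l =>
    TF.cint hφ (((((H.bd i).sm n).continuousOn.mul ((H.bd j).sm n).continuousOn).mul
      ((H.bd k).sm n).continuousOn).mul ((H.bd l).sm n).continuousOn)
  have e1 : ((∫ z, φ z * ‖sf w S n z‖ ^ 2 : ℝ) : ℂ) = ∑ j ∈ S.coeff.support,
      ∑ k ∈ S.coeff.support, co S n j * (co S n k * ∫ z, (φ z : ℂ) * F4 w j (-j) k (-k) n z) := by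
    rw [← integral_complex_ofReal]
    have b : ∀ z, ((φ z * ‖sf w S n z‖ ^ 2 : ℝ) : ℂ) = ∑ j ∈ S.coeff.support,
        ∑ k ∈ S.coeff.support, (co S n j * co S n k) * ((φ z : ℂ) * F4 w j (-j) k (-k) n z) := by
      intro z
      by_cases hz : z ∈ B
      · rw [ofReal_mul, sf_real H S n hz]
        unfold sf
        rw [Finset.sum_mul_sum, Finset.mul_sum]
        refine Finset.sum_congr rfl fun j _ => ?_
        rw [Finset.mul_sum]
        refine Finset.sum_congr rfl fun k _ => ?_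
        unfold F4; ring
      · rw [TF.zero hφ hz]; simp
    simp only [b]
    rw [integral_finsetSum _ fun j _ => integrable_finsetSum _ fun k _ => (c4 _ _ _ _).const_mul _]
    refine Finset.sum_congr rfl fun j _ => ?_
    rw [integral_finsetSum _ fun k _ => (c4 _ _ _ _).const_mul _]
    refine Finset.sum_congr rfl fun k _ => ?_
    rw [integral_const_mul]; ring
  rw [e1, ← GG_sum h2, Finset.sum_mul, ← Finset.sum_sub_distrib]
  refine Finset.sum_congr rfl fun j _ => ?_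
  rw [Finset.sum_mul, ← Finset.sum_sub_distrib]
  refine Finset.sum_congr rfl fun k _ => ?_
  unfold D4; ring

/-- **second moments of quadratic expressions** -/
theorem sf_lim (H : SY B Complex.im h w) (hBU : B ⊆ UH) (h0 : EX B h w (w 0)) {φ : ℂ → ℝ}
    (hφ : TF B φ) (S : AA ℤ) (h1 : ∀ n, ez (ex 0) n S = 0) (h2 : ∀ n, ez (ex Real.pi) n S = 0) :
    Tendsto (fun n => ((∫ z, φ z * ‖sf w S n z‖ ^ 2 : ℝ) : ℂ) -
      ((gp S n : ℝ) : ℂ) * ((∫ z, φ z : ℝ) : ℂ)) atTop (𝓝 0) := by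
  have key : Tendsto (fun n => ∑ j ∈ S.coeff.support, ∑ k ∈ S.coeff.support,
      co S n j * (co S n k * (D4 w φ j (-j) k (-k) n -
        eps j (-j) k (-k) * D4 w φ 0 0 0 0 n))) atTop (𝓝 0) := by
    have := tendsto_finsetSum S.coeff.support fun j _ => tendsto_finsetSum S.coeff.support
      fun k _ => bnd_null (r := S.coeff j) (bnd_null (r := S.coeff k)
        ((dd4 H hBU h0 hφ).even j (-j) k (-k) 0 (by ring)))
    simpa [co] using this
  refine key.congr fun n => ?_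
  rw [sf_exp H hφ S n (h2 n)]
  have e : ∑ j ∈ S.coeff.support, ∑ k ∈ S.coeff.support,
      co S n j * (co S n k * (D4 w φ j (-j) k (-k) n - eps j (-j) k (-k) * D4 w φ 0 0 0 0 n)) =
      (∑ j ∈ S.coeff.support, ∑ k ∈ S.coeff.support,
        co S n j * (co S n k * D4 w φ j (-j) k (-k) n)) -
      (∑ j ∈ S.coeff.support, ∑ k ∈ S.coeff.support,
        co S n j * (co S n k * eps j (-j) k (-k))) * D4 w φ 0 0 0 0 n := by
    rw [Finset.sum_mul, ← Finset.sum_sub_distrib]
    refine Finset.sum_congr rfl fun j _ => ?_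
    rw [Finset.sum_mul, ← Finset.sum_sub_distrib]
    refine Finset.sum_congr rfl fun k _ => ?_
    ring
  rw [e, eps_sum (h1 n) (h2 n), zero_mul, sub_zero]

theorem sf_bd (H : SY B Complex.im h w) (hBU : B ⊆ UH) (h0 : EX B h w (w 0)) {φ : ℂ → ℝ}
    (hφ : TF B φ) (hφ0 : ∀ z, 0 ≤ φ z) (S : AA ℤ) (h1 : ∀ n, ez (ex 0) n S = 0)
    (h2 : ∀ n, ez (ex Real.pi) n S = 0) {ε : ℝ} (hε : 0 < ε) :
    ∀ᶠ n in atTop, ∫ z, φ z * ‖sf w S n z‖ ^ 2 ≤ 2 * N2 S n * (∫ z, φ z) + ε := by
  have h3 := sf_lim H hBU h0 hφ S h1 h2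
  have h4 := (Complex.continuous_re.tendsto 0).comp h3
  rw [zero_re] at h4
  filter_upwards [h4.eventually (gt_mem_nhds hε)] with n hn
  simp only [Function.comp_apply] at hn
  rw [← ofReal_mul, ← ofReal_sub, ofReal_re] at hn
  have h5 : 0 ≤ ∫ z, φ z := integral_nonneg hφ0
  have h6 := mul_le_mul_of_nonneg_right (gp_le S n) h5
  linarith

end

end Pool.Agent.J4H76.TP
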