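import Pool.Agent.J4H76.TP.Cubic
import Pool.Agent.J4H76.TP.Single

/-! The main lemma. -/
set_option autoImplicit false
open MeasureTheory Filter Topology Complex Set
open scoped ContDiff Real Manifold

namespace Pool.Agent.J4H76.TP

open Pool.Agent.W745.RW Pool.Agent.TH294.RS Pool.Agent.Y265.HY Pool.Agent.R314.JN
open AddMonoidAlgebra (single)

noncomputable section

variable {B : Set ℂ} {h κ ε : ℕ → ℝ} {w v g : ℤ → ℕ → ℂ → ℂ}

/-- the mixed quadratic expression -/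
def Pn (w v : ℤ → ℕ → ℂ → ℂ) (S : AA ℤ) (n : ℕ) (z : ℂ) : ℂ :=
  ∑ k ∈ S.coeff.support, co S n k * (w k n z * v (-k) n z)

lemma Pn_cont (H : SY B Complex.im h w) (H' : SY B Complex.im κ v) (S : AA ℤ) (n : ℕ) :
    ContinuousOn (Pn w v S n) B :=
  continuousOn_finsetSum _ fun j _ => continuousOn_const.mul
    (((H.bd j).sm n).continuousOn.mul ((H'.bd (-j)).sm n).continuousOn)

lemma Pn_conj (H : SY B Complex.im h w) (H' : SY B Complex.im κ v) (S : AA ℤ) (n : ℕ) {z : ℂ}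
    (hz : z ∈ B) : (starRingEnd ℂ) (Pn w v S n z) =
      ∑ k ∈ S.coeff.support, co S n k * (w (-k) n z * v k n z) := by
  unfold Pn
  rw [map_sum]
  refine Finset.sum_congr rfl fun k _ => ?_
  rw [map_mul, map_mul, H.cj k n z hz, H'.cj (-k) n z hz, neg_neg, Int.natAbs_neg]
  unfold co
  rw [conj_ofReal]
  linear_combination (((S.coeff k).1 n : ℝ) : ℂ) * (w (-k) n z * v k n z) * sgn2 k

lemma JD_P (H : SY B Complex.im h w) (H' : SY B Complex.im κ v) {φ : ℂ → ℝ} (hφ : TF B φ)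
    (S : AA ℤ) (n : ℕ) :
    EE (JD w v φ) (io (dir 1 0 (-1) 0) S * io (dir 0 (-1) 0 1) S) n =
      ((∫ z, φ z * ‖Pn w v S n z‖ ^ 2 : ℝ) : ℂ) -
        ((N2 S n : ℝ) : ℂ) * ((∫ z, φ z : ℝ) : ℂ) := by
  obtain ⟨m, hm⟩ : ∃ m : ℂ, m = ((∫ z, φ z : ℝ) : ℂ) := ⟨_, rfl⟩
  have e0 : ∀ k l : ℤ, JD w v φ (dir 1 0 (-1) 0 k + dir 0 (-1) 0 1 l) n =
      J4 w v φ k (-l) (-k) l n - (if l = k then 1 else 0) * m := by
    intro k l
    have a : dir 1 0 (-1) 0 k + dir 0 (-1) 0 1 l = (k, -l, -k, l) := by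
      simp [dir]
    rw [a]
    simp only [JD]
    rw [← hm]
    congr 2
    unfold CC
    by_cases hkl : l = k
    · subst hkl
      rw [if_pos (by ring), if_pos (by ring), if_pos rfl, Int.natAbs_neg, sgn2]
    · rw [if_neg (by omega), if_neg (by omega), if_neg hkl, mul_zero]
  rw [EE_mul_io]
  simp only [e0]
  have e1 : ((∫ z, φ z * ‖Pn w v S n z‖ ^ 2 : ℝ) : ℂ) = ∑ k ∈ S.coeff.support,
      ∑ l ∈ S.coeff.support, co S n k * (co S n l * J4 w v φ k (-l) (-k) l n) := by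
    rw [← integral_complex_ofReal]
    have b : ∀ z, ((φ z * ‖Pn w v S n z‖ ^ 2 : ℝ) : ℂ) = ∑ k ∈ S.coeff.support,
        ∑ l ∈ S.coeff.support, (co S n k * co S n l) *
          ((φ z : ℂ) * (w k n z * w (-l) n z * (v (-k) n z * v l n z))) := by
      intro z
      by_cases hz : z ∈ B
      · rw [ofReal_mul, ← Complex.normSq_eq_norm_sq, ← Complex.mul_conj, Pn_conj H H' S n hz]
        unfold Pn
        rw [Finset.sum_mul_sum, Finset.mul_sum]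
        refine Finset.sum_congr rfl fun j _ => ?_
        rw [Finset.mul_sum]
        refine Finset.sum_congr rfl fun k _ => ?_
        ring
      · rw [TF.zero hφ hz]; simp
    simp only [b]
    rw [integral_finsetSum _ fun j _ => integrable_finsetSum _ fun k _ =>
      (J4_int H H' hφ _ _ _ _ n).const_mul _]
    refine Finset.sum_congr rfl fun j _ => ?_
    rw [integral_finsetSum _ fun k _ => (J4_int H H' hφ _ _ _ _ n).const_mul _]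
    refine Finset.sum_congr rfl fun k _ => ?_
    rw [integral_const_mul]
    unfold J4; ring
  have e2 : ((N2 S n : ℝ) : ℂ) = ∑ k ∈ S.coeff.support, ∑ l ∈ S.coeff.support,
      co S n k * (co S n l * (if l = k then 1 else 0)) := by
    unfold N2
    push_cast
    refine Finset.sum_congr rfl fun k _ => ?_
    rw [← Finset.mul_sum, sum_pt]
    unfold co; ring
  rw [e1, e2, Finset.sum_mul, ← Finset.sum_sub_distrib]
  refine Finset.sum_congr rfl fun k _ => ?_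
  rw [Finset.sum_mul, ← Finset.sum_sub_distrib]
  refine Finset.sum_congr rfl fun l _ => ?_
  unfold co; rw [hm]; ring

lemma JD_AB (H : SY B Complex.im h w) (H' : SY B Complex.im κ v) {φ : ℂ → ℝ} (hφ : TF B φ)
    (S T : AA ℤ) (n : ℕ) (hS : ez (ex Real.pi) n S = 0) :
    EE (JD w v φ) (io (dir 1 (-1) 0 0) S * io (dir 0 0 1 (-1)) T) n =
      ∫ z, (φ z : ℂ) * (sf w S n z * sf v T n z) := by
  obtain ⟨m, hm⟩ : ∃ m : ℂ, m = ((∫ z, φ z : ℝ) : ℂ) := ⟨_, rfl⟩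
  have e0 : ∀ k l : ℤ, JD w v φ (dir 1 (-1) 0 0 k + dir 0 0 1 (-1) l) n =
      J4 w v φ k (-k) l (-l) n - (-1) ^ k.natAbs * (-1) ^ l.natAbs * m := by
    intro k l
    have a : dir 1 (-1) 0 0 k + dir 0 0 1 (-1) l = (k, -k, l, -l) := by
      simp [dir]
    rw [a]
    simp only [JD]
    rw [← hm]
    congr 2
    unfold CC
    rw [if_pos (by ring), if_pos (by ring)]
  rw [EE_mul_io]
  simp only [e0]
  have e1 : ∫ z, (φ z : ℂ) * (sf w S n z * sf v T n z) = ∑ k ∈ S.coeff.support,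
      ∑ l ∈ T.coeff.support, co S n k * (co T n l * J4 w v φ k (-k) l (-l) n) := by
    have b : ∀ z, (φ z : ℂ) * (sf w S n z * sf v T n z) = ∑ k ∈ S.coeff.support,
        ∑ l ∈ T.coeff.support, (co S n k * co T n l) *
          ((φ z : ℂ) * (w k n z * w (-k) n z * (v l n z * v (-l) n z))) := by
      intro z
      unfold sf
      rw [Finset.sum_mul_sum, Finset.mul_sum]
      refine Finset.sum_congr rfl fun j _ => ?_
      rw [Finset.mul_sum]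
      refine Finset.sum_congr rfl fun k _ => ?_
      ring
    simp only [b]
    rw [integral_finsetSum _ fun j _ => integrable_finsetSum _ fun k _ =>
      (J4_int H H' hφ _ _ _ _ n).const_mul _]
    refine Finset.sum_congr rfl fun j _ => ?_
    rw [integral_finsetSum _ fun k _ => (J4_int H H' hφ _ _ _ _ n).const_mul _]
    refine Finset.sum_congr rfl fun k _ => ?_
    rw [integral_const_mul]
    unfold J4; ring
  have e2 : ∑ k ∈ S.coeff.support, ∑ l ∈ T.coeff.support,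
      co S n k * (co T n l * ((-1) ^ k.natAbs * (-1) ^ l.natAbs * m)) = 0 := by
    have e3 : ∑ k ∈ S.coeff.support, ∑ l ∈ T.coeff.support,
        co S n k * (co T n l * ((-1) ^ k.natAbs * (-1) ^ l.natAbs * m)) =
        (∑ k ∈ S.coeff.support, co S n k * (-1) ^ k.natAbs) *
          (∑ l ∈ T.coeff.support, co T n l * (-1) ^ l.natAbs) * m := by
      rw [Finset.sum_mul_sum, Finset.sum_mul]
      refine Finset.sum_congr rfl fun k _ => ?_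
      rw [Finset.sum_mul]
      refine Finset.sum_congr rfl fun l _ => ?_
      ring
    rw [e3, ← sum_pi, hS]; ring
  rw [e1, ← sub_zero (∑ k ∈ S.coeff.support, ∑ l ∈ T.coeff.support,
    co S n k * (co T n l * J4 w v φ k (-k) l (-l) n)), ← e2, ← Finset.sum_sub_distrib]
  refine Finset.sum_congr rfl fun k _ => ?_
  rw [← Finset.sum_sub_distrib]
  refine Finset.sum_congr rfl fun l _ => ?_
  unfold co; ring

lemma A1_0 (n : ℕ) : ez (ex 0) n A1 = 0 := by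
  rw [ez_A1, Real.cos_zero]; norm_num

lemma A1_pi (n : ℕ) : ez (ex Real.pi) n A1 = 0 := by
  rw [ez_A1, Real.cos_pi]; norm_num

lemma B1_0 (ρ : BS) (F : Polynomial ℝ) (n : ℕ) : ez (ex 0) n (B1 ρ F) = 0 := by
  rw [ez_B1, Bf, Xf, Real.cos_zero]
  have : 4 * (ρ.1 n) ^ 2 - (ρ.1 n) ^ 2 * (2 + 2 * 1) = 0 := by ring
  rw [this]; simp

lemma B1_pi (ρ : BS) (F : Polynomial ℝ) (n : ℕ) : ez (ex Real.pi) n (B1 ρ F) = 0 := by
  rw [ez_B1, Bf, Xf, Real.cos_pi]; simp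

/-- weighted Cauchy–Schwarz -/
lemma cs_ab {φ : ℂ → ℝ} (hφ : TF B φ) (hφ0 : ∀ z, 0 ≤ φ z) {a b : ℂ → ℂ} (ha : ContinuousOn a B)
    (hb : ContinuousOn b B) {θ : ℝ} (hθ : 0 < θ) :
    ‖∫ z, (φ z : ℂ) * (a z * b z)‖ ≤ θ / 2 * (∫ z, φ z * ‖a z‖ ^ 2) +
      1 / (2 * θ) * ∫ z, φ z * ‖b z‖ ^ 2 := by
  have r : ∀ {f : ℂ → ℂ}, ContinuousOn f B → Integrable (fun z => φ z * ‖f z‖ ^ 2) := by
    intro f hf
    have h1 := TF.cint hφ ((continuous_ofReal.comp_continuousOn hf.norm).pow 2)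
    have h2 := h1.re
    refine h2.congr (Eventually.of_forall fun z => ?_)
    simp only [Pi.pow_apply, Function.comp_apply, RCLike.re_eq_complex_re]
    rw [← ofReal_pow, ← ofReal_mul, ofReal_re]
  rw [← integral_const_mul, ← integral_const_mul,
    ← integral_add ((r ha).const_mul _) ((r hb).const_mul _)]
  refine norm_integral_le_of_norm_le (((r ha).const_mul _).add ((r hb).const_mul _))
    (Eventually.of_forall fun z => ?_)
  rw [norm_mul, norm_mul, Complex.norm_real, Real.norm_eq_abs, abs_of_nonneg (hφ0 z)]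
  have k : ‖a z‖ * ‖b z‖ ≤ θ / 2 * ‖a z‖ ^ 2 + 1 / (2 * θ) * ‖b z‖ ^ 2 := by
    have h1 : 0 ≤ (θ * ‖a z‖ - ‖b z‖) ^ 2 / (2 * θ) := by positivity
    have h2 : (θ * ‖a z‖ - ‖b z‖) ^ 2 / (2 * θ) = θ / 2 * ‖a z‖ ^ 2 + 1 / (2 * θ) * ‖b z‖ ^ 2 -
        ‖a z‖ * ‖b z‖ := by
      field_simp; ring
    linarith
  have := mul_le_mul_of_nonneg_left k (hφ0 z)
  show φ z * (‖a z‖ * ‖b z‖) ≤ θ / 2 * (φ z * ‖a z‖ ^ 2) + 1 / (2 * θ) * (φ z * ‖b z‖ ^ 2)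
  linarith

/-- **the mean square of the mixed expressions** -/
theorem P_core (H : SY B Complex.im h w) (H' : SY B Complex.im κ v) (hBU : B ⊆ UH) {C : ℝ}
    (hC : ∀ n, h n ≤ C * κ n) (hC' : ∀ n, κ n ≤ C * h n) (h0 : EX B h w (w 0))
    (k0 : EX B κ v (v 0)) {φ : ℂ → ℝ} (hφ : TF B φ) (hφ0 : ∀ z, 0 ≤ φ z) (ρ : BS)
    (hρ : ∀ n, ρ.1 n = h n / κ n) (F : Polynomial ℝ) {θ d : ℝ} (hθ0 : 0 < θ) (hd : 0 < d) :
    ∀ᶠ n in atTop, ∫ z, φ z * ‖Pn w v (PP ρ F) n z‖ ^ 2 ≤ N2 (PP ρ F) n * (∫ z, φ z) +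
      θ / 4 * (2 * N2 A1 n * (∫ z, φ z) + 1) +
      1 / (4 * θ) * (2 * N2 (B1 ρ F) n * (∫ z, φ z) + d) + d / 2 := by
  obtain ⟨m, hm⟩ : ∃ m : ℝ, m = ∫ z, φ z := ⟨_, rfl⟩
  have a1 := sf_bd H hBU h0 hφ hφ0 A1 A1_0 A1_pi (ε := 1) one_pos
  have a2 := sf_bd H' hBU k0 hφ hφ0 (B1 ρ F) (B1_0 ρ F) (B1_pi ρ F) hd
  have q := (qs H H' hBU hC hC' h0 k0 hφ ρ hρ).main F
  rw [tendsto_zero_iff_norm_tendsto_zero] at q
  filter_upwards [a1, a2, q.eventually (gt_mem_nhds hd)] with n h3 h4 h5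
  rw [JD_P H H' hφ, JD_AB H H' hφ A1 (B1 ρ F) n (A1_pi n), ← hm] at h5
  rw [← hm] at h3 h4 ⊢
  have b1 := cs_ab hφ hφ0 (sf_cont H A1 n) (sf_cont H' (B1 ρ F) n) hθ0
  obtain ⟨D, hD⟩ : ∃ D : ℝ, D = ∫ z, φ z * ‖Pn w v (PP ρ F) n z‖ ^ 2 := ⟨_, rfl⟩
  obtain ⟨X, hX⟩ : ∃ X : ℂ, X = ∫ z, (φ z : ℂ) * (sf w A1 n z * sf v (B1 ρ F) n z) := ⟨_, rfl⟩
  rw [← hD, ← hX] at h5
  rw [← hX] at b1
  rw [← hD]
  have b2 : 2 * (D - N2 (PP ρ F) n * m) ≤ ‖X‖ + d := by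
    have c1 : 2 * (((D : ℝ) : ℂ) - ((N2 (PP ρ F) n : ℝ) : ℂ) * ((m : ℝ) : ℂ)) =
        ((2 * (D - N2 (PP ρ F) n * m) : ℝ) : ℂ) := by push_cast; ring
    rw [c1] at h5
    have c2 := norm_le_norm_add_norm_sub' ((2 * (D - N2 (PP ρ F) n * m) : ℝ) : ℂ) X
    rw [Complex.norm_real, Real.norm_eq_abs] at c2
    have c3 := le_abs_self (2 * (D - N2 (PP ρ F) n * m))
    linarith
  have b3 : θ / 2 * (∫ z, φ z * ‖sf w A1 n z‖ ^ 2) ≤ θ / 2 * (2 * N2 A1 n * m + 1) :=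
    mul_le_mul_of_nonneg_left h3 (by positivity)
  have b4 : 1 / (2 * θ) * (∫ z, φ z * ‖sf v (B1 ρ F) n z‖ ^ 2) ≤
      1 / (2 * θ) * (2 * N2 (B1 ρ F) n * m + d) :=
    mul_le_mul_of_nonneg_left h4 (by positivity)
  have b5 : 1 / (2 * θ) * (2 * N2 (B1 ρ F) n * m + d) =
      2 * (1 / (4 * θ) * (2 * N2 (B1 ρ F) n * m + d)) := by field_simp; ring
  linarith

/-- **the mixed expressions with a peaked symbol are small** -/
theorem P_small (H : SY B Complex.im h w) (H' : SY B Complex.im κ v) (hBU : B ⊆ UH) {C : ℝ}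
    (hC : ∀ n, h n ≤ C * κ n) (hC' : ∀ n, κ n ≤ C * h n) (h0 : EX B h w (w 0))
    (k0 : EX B κ v (v 0)) {φ : ℂ → ℝ} (hφ : TF B φ) (hφ0 : ∀ z, 0 ≤ φ z) (ρ : BS)
    (hρ : ∀ n, ρ.1 n = h n / κ n) {ρ0 t : ℝ} (hρ0 : 0 < ρ0) (hρ1 : ρ0 ≤ 1) (ht : 0 ≤ t)
    (ht' : t = 0 → ρ0 < 1)
    (hl : Tendsto (fun n => ρ.1 n) atTop (𝓝 ρ0)) {e : ℝ} (he : 0 < e) :
    ∃ N : ℕ, ∀ᶠ n in atTop, ∫ z, φ z * ‖Pn w v (PP ρ (pk t ^ N)) n z‖ ^ 2 ≤ 3 * e := by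
  obtain ⟨m, hm⟩ : ∃ m : ℝ, m = ∫ z, φ z := ⟨_, rfl⟩
  have m0 : 0 ≤ m := by rw [hm]; exact integral_nonneg hφ0
  obtain ⟨KA, hKA⟩ : ∃ KA : ℝ, ∀ n, N2 A1 n = KA := ⟨_, fun n => N2_A1 n⟩
  have KA0 : 0 ≤ KA := by rw [← hKA 0]; exact N2_nonneg _ _
  obtain ⟨θ, hθ⟩ : ∃ θ : ℝ, θ = e / (2 * KA * m + 1) := ⟨_, rfl⟩
  have hd : 0 < 2 * KA * m + 1 := by positivity
  have hθ0 : 0 < θ := by rw [hθ]; positivity
  have hθe : θ * (2 * KA * m + 1) = e := by rw [hθ]; field_simp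
  -- choice of the polynomial
  have l1 : Tendsto (fun N : ℕ => ms (Pf ρ0 (pk t ^ N)) * m) atTop (𝓝 0) := by
    have := (Pf_lim hρ0 hρ1 ht).mul_const m
    rwa [zero_mul] at this
  have l2 : Tendsto (fun N : ℕ => 2 * ms (Bf ρ0 (pk t ^ N)) * m) atTop (𝓝 0) := by
    have := ((Bf_lim hρ0 hρ1 ht ht').const_mul 2).mul_const m
    rwa [mul_zero, zero_mul] at this
  obtain ⟨d, hdd⟩ : ∃ d : ℝ, d = min e (θ * e) := ⟨_, rfl⟩
  have d0 : 0 < d := by rw [hdd]; exact lt_min he (by positivity)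
  have d1 : d ≤ e := by rw [hdd]; exact min_le_left _ _
  have d2 : d ≤ θ * e := by rw [hdd]; exact min_le_right _ _
  obtain ⟨N, hN1, hN2⟩ := ((l1.eventually (gt_mem_nhds he)).and
    (l2.eventually (gt_mem_nhds (show 0 < θ * e by positivity)))).exists
  refine ⟨N, ?_⟩
  obtain ⟨F, hF⟩ : ∃ F, F = pk t ^ N := ⟨_, rfl⟩
  rw [← hF] at hN1 hN2 ⊢
  have m1 : Tendsto (fun n => N2 (PP ρ F) n * m) atTop (𝓝 (ms (Pf ρ0 F) * m)) := by
    have := (ms_tendsto (Pf_cont F) hl).mul_const m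
    refine this.congr fun n => ?_
    rw [N2_PP]
  have m2 : Tendsto (fun n => 2 * N2 (B1 ρ F) n * m) atTop (𝓝 (2 * ms (Bf ρ0 F) * m)) := by
    have := ((ms_tendsto (Bf_cont F) hl).const_mul 2).mul_const m
    refine this.congr fun n => ?_
    rw [N2_B1]
  filter_upwards [m1.eventually (gt_mem_nhds hN1), m2.eventually (gt_mem_nhds hN2),
    P_core H H' hBU hC hC' h0 k0 hφ hφ0 ρ hρ F hθ0 d0] with n h1 h2 h3
  rw [← hm, hKA] at h3
  refine h3.trans ?_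
  have b4 : 1 / (4 * θ) * (2 * N2 (B1 ρ F) n * m + d) ≤ e / 2 := by
    have : 1 / (4 * θ) * (2 * N2 (B1 ρ F) n * m + d) ≤ 1 / (4 * θ) * (2 * (θ * e)) :=
      mul_le_mul_of_nonneg_left (by linarith) (by positivity)
    have e2 : 1 / (4 * θ) * (2 * (θ * e)) = e / 2 := by field_simp; norm_num
    linarith
  linarith

/-- **the mixed expressions are bounded** -/
theorem P_bdd (H : SY B Complex.im h w) (H' : SY B Complex.im κ v) (hBU : B ⊆ UH) {C : ℝ}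
    (hC : ∀ n, h n ≤ C * κ n) (hC' : ∀ n, κ n ≤ C * h n) (h0 : EX B h w (w 0))
    (k0 : EX B κ v (v 0)) {φ : ℂ → ℝ} (hφ : TF B φ) (hφ0 : ∀ z, 0 ≤ φ z) (ρ : BS)
    (hρ : ∀ n, ρ.1 n = h n / κ n) {ρ0 : ℝ}
    (hl : Tendsto (fun n => ρ.1 n) atTop (𝓝 ρ0)) :
    ∃ D : ℝ, ∀ᶠ n in atTop, ∫ z, φ z * ‖Pn w v (PP ρ 1) n z‖ ^ 2 ≤ D := by
  obtain ⟨m, hm⟩ : ∃ m : ℝ, m = ∫ z, φ z := ⟨_, rfl⟩
  obtain ⟨KA, hKA⟩ : ∃ KA : ℝ, ∀ n, N2 A1 n = KA := ⟨_, fun n => N2_A1 n⟩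
  have m1 : Tendsto (fun n => N2 (PP ρ 1) n * m) atTop (𝓝 (ms (Pf ρ0 1) * m)) := by
    have := (ms_tendsto (Pf_cont 1) hl).mul_const m
    refine this.congr fun n => ?_
    rw [N2_PP]
  have m2 : Tendsto (fun n => 2 * N2 (B1 ρ 1) n * m) atTop (𝓝 (2 * ms (Bf ρ0 1) * m)) := by
    have := ((ms_tendsto (Bf_cont 1) hl).const_mul 2).mul_const m
    refine this.congr fun n => ?_
    rw [N2_B1]
  refine ⟨(ms (Pf ρ0 1) * m + 1) + 1 / 4 * (2 * KA * m + 1) +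
    1 / (4 * 1) * ((2 * ms (Bf ρ0 1) * m + 1) + 1) + 1 / 2, ?_⟩
  filter_upwards [m1.eventually (gt_mem_nhds (lt_add_one _)),
    m2.eventually (gt_mem_nhds (lt_add_one _)),
    P_core H H' hBU hC hC' h0 k0 hφ hφ0 ρ hρ 1 one_pos one_pos] with n h1 h2 h3
  rw [← hm, hKA] at h3
  linarith

lemma F0_ne {ρ τ : ℝ} (h0 : 0 < ρ) (h1 : ρ ≤ 1) (h2 : 1 ≤ τ) (h3 : τ ≠ 1 + ρ) :
    F0 ρ (τ ^ 2) ≠ 0 := by
  have e : F0 ρ (τ ^ 2) = ((τ - 1 - ρ) * (τ + 1 + ρ)) * ((τ - 1 + ρ) * (τ + 1 - ρ)) *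
      ((τ ^ 2 - 1 + ρ ^ 2) * (τ ^ 2 + 1 - ρ ^ 2)) := by
    unfold F0; ring
  rw [e]
  have a1 : τ - 1 - ρ ≠ 0 := fun h => h3 (by linarith)
  have a2 : 0 < τ + 1 + ρ := by linarith
  have a3 : 0 < τ - 1 + ρ := by linarith
  have a4 : 0 < τ + 1 - ρ := by linarith
  have a5 : 0 < τ ^ 2 - 1 + ρ ^ 2 := by nlinarith
  have a6 : 0 < τ ^ 2 + 1 - ρ ^ 2 := by nlinarith
  exact mul_ne_zero (mul_ne_zero (mul_ne_zero a1 a2.ne') (mul_ne_zero a3.ne' a4.ne'))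
    (mul_ne_zero a5.ne' a6.ne')

/-- pairing with the third system -/
lemma pair_bd (H : SY B Complex.im h w) (H' : SY B Complex.im κ v) (H'' : SY B Complex.im ε g)
    {ψ : ℂ → ℝ} (hψ : TF B ψ) (S : AA ℤ) (n : ℕ) {s : ℝ} (hs : 0 < s) :
    ‖EE (C3 w v g ψ) (io d3 S) n‖ ≤ 1 / (2 * s) * (∫ z, ψ z ^ 2 * ‖Pn w v S n z‖ ^ 2) +
      s / 2 * ∫ z in tsupport ψ, ‖g 0 n z‖ ^ 2 := by
  have K := hψ.2.1
  have e1 : EE (C3 w v g ψ) (io d3 S) n = ∫ z, (ψ z : ℂ) * (Pn w v S n z * g 0 n z) := by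
    rw [EE_io, EE, Finsupp.sum]
    have b : ∀ z, (ψ z : ℂ) * (Pn w v S n z * g 0 n z) = ∑ k ∈ S.coeff.support,
        co S n k * ((ψ z : ℂ) * (w k n z * v (-k) n z * g 0 n z)) := by
      intro z
      unfold Pn
      rw [Finset.sum_mul, Finset.mul_sum]
      refine Finset.sum_congr rfl fun j _ => ?_
      ring
    simp only [b]
    rw [integral_finsetSum _ fun j _ => (C3_int H H' H'' hψ _ _ _ n).const_mul _]
    refine Finset.sum_congr rfl fun j _ => ?_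
    rw [integral_const_mul]
    rfl
  rw [e1]
  have e2 : ∫ z, (ψ z : ℂ) * (Pn w v S n z * g 0 n z) =
      ∫ z in tsupport ψ, (ψ z : ℂ) * (Pn w v S n z * g 0 n z) := by
    refine (setIntegral_eq_integral_of_forall_compl_eq_zero (fun z hz => ?_)).symm
    rw [image_eq_zero_of_notMem_tsupport hz]; simp
  have e3 : ∫ z, ψ z ^ 2 * ‖Pn w v S n z‖ ^ 2 =
      ∫ z in tsupport ψ, ψ z ^ 2 * ‖Pn w v S n z‖ ^ 2 := by
    refine (setIntegral_eq_integral_of_forall_compl_eq_zero (fun z hz => ?_)).symm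
    rw [image_eq_zero_of_notMem_tsupport hz]; simp
  rw [e2, e3, ← integral_const_mul, ← integral_const_mul]
  have i1 : IntegrableOn (fun z => ψ z ^ 2 * ‖Pn w v S n z‖ ^ 2) (tsupport ψ) :=
    ContinuousOn.integrableOn_compact K ((hψ.1.continuous.continuousOn.pow 2).mul
      (((Pn_cont H H' S n).mono hψ.2.2).norm.pow 2))
  have i2 : IntegrableOn (fun z => ‖g 0 n z‖ ^ 2) (tsupport ψ) :=
    ContinuousOn.integrableOn_compact K
      ((((H''.bd 0).sm n).continuousOn.mono hψ.2.2).norm.pow 2)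
  have i3 := i1.const_mul (1 / (2 * s))
  have i4 := i2.const_mul (s / 2)
  rw [← integral_add i3 i4]
  refine norm_integral_le_of_norm_le (i3.add i4) (Eventually.of_forall fun z => ?_)
  rw [norm_mul, norm_mul, Complex.norm_real, Real.norm_eq_abs]
  have h2 : 1 / (2 * s) * (ψ z ^ 2 * ‖Pn w v S n z‖ ^ 2) + s / 2 * ‖g 0 n z‖ ^ 2 -
      |ψ z| * (‖Pn w v S n z‖ * ‖g 0 n z‖) =
      (|ψ z| * ‖Pn w v S n z‖ - s * ‖g 0 n z‖) ^ 2 / (2 * s) := by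
    rw [← sq_abs (ψ z)]
    field_simp; ring
  have h1 : 0 ≤ (|ψ z| * ‖Pn w v S n z‖ - s * ‖g 0 n z‖) ^ 2 / (2 * s) := by positivity
  show |ψ z| * (‖Pn w v S n z‖ * ‖g 0 n z‖) ≤
    1 / (2 * s) * (ψ z ^ 2 * ‖Pn w v S n z‖ ^ 2) + s / 2 * ‖g 0 n z‖ ^ 2
  linarith

/-- **The main lemma.** -/
theorem main (H : SY B Complex.im h w) (H' : SY B Complex.im κ v) (H'' : SY B Complex.im ε g)
    (hBU : B ⊆ UH) (h0 : EX B h w (w 0)) (k0 : EX B κ v (v 0)) {ρ0 τ0 : ℝ} (hρ0 : 0 < ρ0)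
    (hρ1 : ρ0 ≤ 1) (hne : F0 ρ0 (τ0 ^ 2) ≠ 0)
    (hl : Tendsto (fun n => h n / κ n) atTop (𝓝 ρ0))
    (hl' : Tendsto (fun n => h n / ε n) atTop (𝓝 τ0)) {ψ : ℂ → ℝ} (hψ : TF B ψ) :
    Tendsto (fun n => ∫ z, (ψ z : ℂ) * (w 0 n z * v 0 n z * g 0 n z)) atTop (𝓝 0) := by
  -- bounds for the ratios
  obtain ⟨C1, hC1⟩ : ∃ C, ∀ n, |h n / κ n| ≤ C := by
    obtain ⟨C, hC⟩ := (Metric.isBounded_range_of_tendsto _ hl).exists_norm_le
    exact ⟨C, fun n => by rw [← Real.norm_eq_abs]; exact hC _ (mem_range_self n)⟩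
  obtain ⟨C2, hC2⟩ : ∃ C, ∀ n, |κ n / h n| ≤ C := by
    have hl2 : Tendsto (fun n => κ n / h n) atTop (𝓝 (ρ0⁻¹)) :=
      (hl.inv₀ hρ0.ne').congr fun n => by rw [inv_div]
    obtain ⟨C, hC⟩ := (Metric.isBounded_range_of_tendsto _ hl2).exists_norm_le
    exact ⟨C, fun n => by rw [← Real.norm_eq_abs]; exact hC _ (mem_range_self n)⟩
  obtain ⟨C3', hC3⟩ : ∃ C, ∀ n, |h n / ε n| ≤ C := by
    obtain ⟨C, hC⟩ := (Metric.isBounded_range_of_tendsto _ hl').exists_norm_le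
    exact ⟨C, fun n => by rw [← Real.norm_eq_abs]; exact hC _ (mem_range_self n)⟩
  have hC : ∀ n, h n ≤ (max C1 C2) * κ n := by
    intro n
    have a := H'.hpos n
    have b := (le_abs_self _).trans ((hC1 n).trans (le_max_left C1 C2))
    rwa [div_le_iff₀ a] at b
  have hC' : ∀ n, κ n ≤ (max C1 C2) * h n := by
    intro n
    have a := H.hpos n
    have b := (le_abs_self _).trans ((hC2 n).trans (le_max_right C1 C2))
    rwa [div_le_iff₀ a] at b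
  obtain ⟨ρ, hρ⟩ : ∃ ρ : BS, ∀ n, ρ.1 n = h n / κ n := ⟨⟨fun n => h n / κ n, C1, hC1⟩, fun _ => rfl⟩
  obtain ⟨τ, hτ⟩ : ∃ τ : BS, ∀ n, τ.1 n = h n / ε n := ⟨⟨fun n => h n / ε n, C3', hC3⟩, fun _ => rfl⟩
  have hl1 : Tendsto (fun n => ρ.1 n) atTop (𝓝 ρ0) := by simpa only [hρ] using hl
  have hl2 : Tendsto (fun n => τ.1 n) atTop (𝓝 τ0) := by simpa only [hτ] using hl'
  -- the constant
  obtain ⟨L, hL⟩ : ∃ L, L = |F0 ρ0 (τ0 ^ 2)| := ⟨_, rfl⟩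
  have L0 : 0 < L := by rw [hL]; exact abs_pos.2 hne
  have t0 : 0 ≤ τ0 ^ 2 := sq_nonneg _
  have t1 : τ0 ^ 2 = 0 → ρ0 < 1 := by
    intro h1
    refine lt_of_le_of_ne hρ1 fun h2 => hne ?_
    rw [h1, h2]; unfold F0; ring
  -- second moments of the third system
  obtain ⟨M, hM⟩ := (H''.bd 0).lb.bd (tsupport ψ) hψ.2.1 hψ.2.2
  have hφ : TF B (fun z => ψ z ^ 2) := by
    refine ⟨hψ.1.pow 2, ?_, ?_⟩
    · exact hψ.2.1.comp_left (g := fun x : ℝ => x ^ 2) (by norm_num)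
    · refine (closure_mono ?_).trans hψ.2.2
      intro z hz
      rw [Function.mem_support] at hz ⊢
      intro h; apply hz; rw [h]; norm_num
  rw [Metric.tendsto_atTop']
  intro η hη
  obtain ⟨s, hs⟩ : ∃ s, s = L * η / (8 * (|M| + 1)) := ⟨_, rfl⟩
  have s0 : 0 < s := by rw [hs]; positivity
  have sM : s * (|M| + 1) = L * η / 8 := by rw [hs]; field_simp
  obtain ⟨N, hN⟩ := P_small H H' hBU hC hC' h0 k0 hφ (fun z => sq_nonneg _) ρ hρ hρ0 hρ1 t0 t1 hl1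
    (e := s * L * η / 24) (by positivity)
  have cc := C3_col H H' H'' hBU hC h0 k0 hψ ρ τ hρ hτ (pk (τ0 ^ 2) ^ N)
  rw [tendsto_zero_iff_norm_tendsto_zero] at cc
  have cn : Tendsto (fun n => |F0 (ρ.1 n) (τ.1 n ^ 2) * (pk (τ0 ^ 2) ^ N).eval (τ.1 n ^ 2)|) atTop
      (𝓝 L) := by
    have c1 : Continuous (fun q : ℝ × ℝ => F0 q.1 (q.2 ^ 2)) := by unfold F0; fun_prop
    have c2 : Continuous (fun q : ℝ × ℝ => (pk (τ0 ^ 2) ^ N).eval (q.2 ^ 2)) :=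
      (pk (τ0 ^ 2) ^ N).continuous.comp (continuous_snd.pow 2)
    obtain ⟨G, hG⟩ : ∃ G : ℝ × ℝ → ℝ, G = fun q =>
      |F0 q.1 (q.2 ^ 2) * (pk (τ0 ^ 2) ^ N).eval (q.2 ^ 2)| := ⟨_, rfl⟩
    have hG' : ∀ a b, G (a, b) = |F0 a (b ^ 2) * (pk (τ0 ^ 2) ^ N).eval (b ^ 2)| := by
      intro a b; rw [hG]
    have cG : Continuous G := by rw [hG]; exact (c1.mul c2).abs
    have c3 : Tendsto (fun n => G (ρ.1 n, τ.1 n)) atTop (𝓝 (G (ρ0, τ0))) :=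
      (cG.tendsto (ρ0, τ0)).comp (hl1.prodMk_nhds hl2)
    have e : G (ρ0, τ0) = L := by
      rw [hG', Polynomial.eval_pow, pk_one, one_pow, mul_one, hL]
    rw [e] at c3
    exact c3.congr fun n => hG' _ _
  have all := ((hN.and (cc.eventually (gt_mem_nhds (show 0 < L * η / 8 by positivity)))).and
    (cn.eventually (lt_mem_nhds (show L / 2 < L by linarith)))).and hM
  rw [eventually_atTop] at all
  obtain ⟨N0, hN0⟩ := all
  refine ⟨N0, fun n hn => ?_⟩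
  obtain ⟨⟨⟨h1, h2⟩, h3⟩, h4⟩ := hN0 n hn.le
  rw [dist_zero_right]
  have p := pair_bd H H' H'' hψ (PP ρ (pk (τ0 ^ 2) ^ N)) n s0
  obtain ⟨X, hX⟩ : ∃ X : ℂ, X = ∫ z, (ψ z : ℂ) * (w 0 n z * v 0 n z * g 0 n z) := ⟨_, rfl⟩
  have hX' : C3 w v g ψ (0, 0, 0) n = X := hX.symm
  rw [hX'] at h2
  rw [← hX]
  obtain ⟨Y, hY⟩ : ∃ Y : ℂ, Y = EE (C3 w v g ψ) (io d3 (PP ρ (pk (τ0 ^ 2) ^ N))) n := ⟨_, rfl⟩
  rw [← hY] at h2 p
  have p1 : 1 / (2 * s) * (∫ z, ψ z ^ 2 * ‖Pn w v (PP ρ (pk (τ0 ^ 2) ^ N)) n z‖ ^ 2) ≤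
      L * η / 16 := by
    have : 1 / (2 * s) * (∫ z, ψ z ^ 2 * ‖Pn w v (PP ρ (pk (τ0 ^ 2) ^ N)) n z‖ ^ 2) ≤
        1 / (2 * s) * (3 * (s * L * η / 24)) := mul_le_mul_of_nonneg_left h1 (by positivity)
    have e2 : 1 / (2 * s) * (3 * (s * L * η / 24)) = L * η / 16 := by field_simp; norm_num
    linarith
  have p2 : s / 2 * (∫ z in tsupport ψ, ‖g 0 n z‖ ^ 2) ≤ L * η / 16 := by
    have : s / 2 * (∫ z in tsupport ψ, ‖g 0 n z‖ ^ 2) ≤ s / 2 * (|M| + 1) :=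
      mul_le_mul_of_nonneg_left (by have := le_abs_self M; linarith) (by positivity)
    linarith
  obtain ⟨c, hc⟩ : ∃ c : ℝ, c = F0 (ρ.1 n) (τ.1 n ^ 2) *
    (pk (τ0 ^ 2) ^ N).eval (τ.1 n ^ 2) := ⟨_, rfl⟩
  rw [← hc] at h2 h3
  have p3 : |c| * ‖X‖ ≤ ‖Y‖ + L * η / 8 := by
    have e1 : |c| * ‖X‖ = ‖(c : ℂ) * X‖ := by
      rw [norm_mul, Complex.norm_real, Real.norm_eq_abs]
    rw [e1]
    have := norm_le_norm_add_norm_sub' ((c : ℂ) * X) Y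
    rw [norm_sub_rev] at this
    linarith
  have p4 : L / 2 * ‖X‖ ≤ |c| * ‖X‖ := mul_le_mul_of_nonneg_right h3.le (norm_nonneg _)
  have p5 : L * ‖X‖ < L * η := by nlinarith
  exact lt_of_mul_lt_mul_left p5 L0.le

/-- **The main lemma, third system of much larger frequency.** -/
theorem maini (H : SY B Complex.im h w) (H' : SY B Complex.im κ v) (H'' : SY B Complex.im ε g)
    (hBU : B ⊆ UH) (h0 : EX B h w (w 0)) (k0 : EX B κ v (v 0)) {ρ0 : ℝ} (hρ0 : 0 < ρ0)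
    (hl : Tendsto (fun n => h n / κ n) atTop (𝓝 ρ0))
    (hl' : Tendsto (fun n => ε n / h n) atTop (𝓝 0)) {ψ : ℂ → ℝ} (hψ : TF B ψ) :
    Tendsto (fun n => ∫ z, (ψ z : ℂ) * (w 0 n z * v 0 n z * g 0 n z)) atTop (𝓝 0) := by
  obtain ⟨C1, hC1⟩ : ∃ C, ∀ n, |h n / κ n| ≤ C := by
    obtain ⟨C, hC⟩ := (Metric.isBounded_range_of_tendsto _ hl).exists_norm_le
    exact ⟨C, fun n => by rw [← Real.norm_eq_abs]; exact hC _ (mem_range_self n)⟩
  obtain ⟨C2, hC2⟩ : ∃ C, ∀ n, |κ n / h n| ≤ C := by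
    have hl2 : Tendsto (fun n => κ n / h n) atTop (𝓝 (ρ0⁻¹)) :=
      (hl.inv₀ hρ0.ne').congr fun n => by rw [inv_div]
    obtain ⟨C, hC⟩ := (Metric.isBounded_range_of_tendsto _ hl2).exists_norm_le
    exact ⟨C, fun n => by rw [← Real.norm_eq_abs]; exact hC _ (mem_range_self n)⟩
  obtain ⟨C3', hC3⟩ : ∃ C, ∀ n, |ε n / h n| ≤ C := by
    obtain ⟨C, hC⟩ := (Metric.isBounded_range_of_tendsto _ hl').exists_norm_le
    exact ⟨C, fun n => by rw [← Real.norm_eq_abs]; exact hC _ (mem_range_self n)⟩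
  have hC : ∀ n, h n ≤ (max C1 C2) * κ n := by
    intro n
    have a := H'.hpos n
    have b := (le_abs_self _).trans ((hC1 n).trans (le_max_left C1 C2))
    rwa [div_le_iff₀ a] at b
  have hC' : ∀ n, κ n ≤ (max C1 C2) * h n := by
    intro n
    have a := H.hpos n
    have b := (le_abs_self _).trans ((hC2 n).trans (le_max_right C1 C2))
    rwa [div_le_iff₀ a] at b
  obtain ⟨ρ, hρ⟩ : ∃ ρ : BS, ∀ n, ρ.1 n = h n / κ n := ⟨⟨fun n => h n / κ n, C1, hC1⟩, fun _ => rfl⟩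
  obtain ⟨σ, hσ⟩ : ∃ σ : BS, ∀ n, σ.1 n = ε n / h n := ⟨⟨fun n => ε n / h n, C3', hC3⟩, fun _ => rfl⟩
  have hl1 : Tendsto (fun n => ρ.1 n) atTop (𝓝 ρ0) := by simpa only [hρ] using hl
  have hl2 : Tendsto (fun n => σ.1 n) atTop (𝓝 0) := by simpa only [hσ] using hl'
  obtain ⟨M, hM⟩ := (H''.bd 0).lb.bd (tsupport ψ) hψ.2.1 hψ.2.2
  have hφ : TF B (fun z => ψ z ^ 2) := by
    refine ⟨hψ.1.pow 2, ?_, ?_⟩
    · exact hψ.2.1.comp_left (g := fun x : ℝ => x ^ 2) (by norm_num)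
    · refine (closure_mono ?_).trans hψ.2.2
      intro z hz
      rw [Function.mem_support] at hz ⊢
      intro h; apply hz; rw [h]; norm_num
  obtain ⟨D, hD⟩ := P_bdd H H' hBU hC hC' h0 k0 hφ (fun z => sq_nonneg _) ρ hρ hl1
  -- the pairing is bounded
  have bdE : ∀ᶠ n in atTop, ‖EE (C3 w v g ψ) (io d3 (PP ρ 1)) n‖ ≤ |D| + |M| := by
    filter_upwards [hD, hM] with n h1 h2
    have p := pair_bd H H' H'' hψ (PP ρ 1) n one_pos
    refine p.trans ?_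
    have a1 := le_abs_self D
    have a2 := le_abs_self M
    have a3 := abs_nonneg D
    have a4 := abs_nonneg M
    linarith
  have n1 : Tendsto (fun n => ((σ.1 n ^ 8 : ℝ) : ℂ) * EE (C3 w v g ψ) (io d3 (PP ρ 1)) n) atTop
      (𝓝 0) := by
    rw [tendsto_zero_iff_norm_tendsto_zero]
    have h1 : Tendsto (fun n => |σ.1 n ^ 8| * (|D| + |M|)) atTop (𝓝 0) := by
      have := ((hl2.pow 8).abs).mul_const (|D| + |M|)
      simpa using this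
    refine squeeze_zero' (Eventually.of_forall fun n => norm_nonneg _) ?_ h1
    filter_upwards [bdE] with n hn
    rw [norm_mul, Complex.norm_real, Real.norm_eq_abs]
    exact mul_le_mul_of_nonneg_left hn (abs_nonneg _)
  have cc := C3_coli H H' H'' hBU hC h0 k0 hψ ρ σ hρ hσ
  have n2 : Tendsto (fun n => ((GI (ρ.1 n) (σ.1 n) : ℝ) : ℂ) * C3 w v g ψ (0, 0, 0) n) atTop
      (𝓝 0) := by
    have := n1.sub cc
    rw [sub_zero] at this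
    exact this.congr fun n => by ring
  have n3 : Tendsto (fun n => ((GI (ρ.1 n) (σ.1 n) : ℝ) : ℂ)) atTop (𝓝 1) := by
    obtain ⟨G, hG⟩ : ∃ G : ℝ × ℝ → ℝ, G = fun q => GI q.1 q.2 := ⟨_, rfl⟩
    have hG' : ∀ a b, G (a, b) = GI a b := by
      intro a b; rw [hG]
    have c1 : Continuous G := by rw [hG]; unfold GI; fun_prop
    have c3 : Tendsto (fun n => G (ρ.1 n, σ.1 n)) atTop (𝓝 (G (ρ0, 0))) :=
      (c1.tendsto (ρ0, 0)).comp (hl1.prodMk_nhds hl2)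
    have e : G (ρ0, 0) = 1 := by rw [hG']; unfold GI; ring
    rw [e] at c3
    have c4 : Tendsto (fun n => ((G (ρ.1 n, σ.1 n) : ℝ) : ℂ)) atTop (𝓝 ((1 : ℝ) : ℂ)) :=
      (continuous_ofReal.tendsto 1).comp c3
    rw [ofReal_one] at c4
    exact c4.congr fun n => by rw [hG']
  have n4 := n2.div n3 one_ne_zero
  rw [zero_div] at n4
  refine n4.congr' ?_
  have n5 : ∀ᶠ n in atTop, ((GI (ρ.1 n) (σ.1 n) : ℝ) : ℂ) ≠ 0 :=
    n3.eventually_ne one_ne_zero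
  filter_upwards [n5] with n hn
  show ((GI (ρ.1 n) (σ.1 n) : ℝ) : ℂ) * C3 w v g ψ (0, 0, 0) n / _ = C3 w v g ψ (0, 0, 0) n
  rw [mul_div_cancel_left₀ _ hn]

end

end Pool.Agent.J4H76.TP
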