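import Mathlib

/-! Identities in commutative rings. -/
set_option autoImplicit false
set_option linter.unusedSectionVars false
set_option linter.unusedVariables false

namespace Pool.Agent.J4H76.TP

noncomputable section

variable {A : Type} [CommRing A]

/-- power sums of two numbers with sum `s` and product `p` -/
def kap (s p : A) : ℕ → A
  | 0 => 2
  | 1 => s
  | (m + 2) => s * kap s p (m + 1) - p * kap s p m

lemma kap_eq {s p r1 r2 : A} (hs : r1 + r2 = s) (hp : r1 * r2 = p) : ∀ m : ℕ,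
    kap s p m = r1 ^ m + r2 ^ m
  | 0 => by simp [kap]; norm_num
  | 1 => by simp [kap, hs]
  | (m + 2) => by
    rw [kap, kap_eq hs hp (m + 1), kap_eq hs hp m, ← hs, ← hp]
    ring

variable [Algebra ℝ A]

/-- the trace of a polynomial -/
def KK (s p : A) (g : Polynomial ℝ) : A := g.sum fun m c => c • kap s p m

lemma KK_eq {s p r1 r2 : A} (hs : r1 + r2 = s) (hp : r1 * r2 = p) (g : Polynomial ℝ) :
    KK s p g = Polynomial.aeval r1 g + Polynomial.aeval r2 g := by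
  unfold KK
  rw [Polynomial.aeval_eq_sum_range, Polynomial.aeval_eq_sum_range, ← Finset.sum_add_distrib,
    Polynomial.sum_over_range]
  · refine Finset.sum_congr rfl fun m _ => ?_
    rw [kap_eq hs hp, smul_add]
  · intro m; simp

lemma kap_map {B : Type} [CommRing B] (f : A →+* B) (s p : A) : ∀ m : ℕ,
    f (kap s p m) = kap (f s) (f p) m
  | 0 => by rw [kap, kap]; exact map_ofNat f 2
  | 1 => by simp [kap]
  | (m + 2) => by
    rw [kap, kap, map_sub, map_mul, map_mul, kap_map f s p (m + 1), kap_map f s p m]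

lemma KK_map {B : Type} [CommRing B] [Algebra ℝ B] (f : A →ₐ[ℝ] B) (s p : A) (g : Polynomial ℝ) :
    f (KK s p g) = KK (f s) (f p) g := by
  unfold KK
  rw [Polynomial.sum_def, Polynomial.sum_def, map_sum]
  refine Finset.sum_congr rfl fun m _ => ?_
  rw [map_smul]
  congr 1
  exact kap_map f.toRingHom s p m

/-- the factor that vanishes at the degenerate frequencies -/
def F0 (ρ r : A) : A := (r ^ 2 - 2 * (1 + ρ ^ 2) * r + (1 - ρ ^ 2) ^ 2) * (r ^ 2 - (1 - ρ ^ 2) ^ 2)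

/-- the weight `x² (4 ρ² - x) (4 - x)` -/
def Y0 (ρ x : A) : A := x ^ 2 * (4 * ρ ^ 2 - x) * (4 - x)

lemma F0_sq {ρ x r1 r2 : A} (hs : r1 + r2 = 2 * (1 + ρ ^ 2) - x) (hp : r1 * r2 = (1 - ρ ^ 2) ^ 2) :
    F0 ρ r1 ^ 2 = Y0 ρ x * r1 ^ 4 := by
  have e1 : r1 ^ 2 - 2 * (1 + ρ ^ 2) * r1 + (1 - ρ ^ 2) ^ 2 = - x * r1 := by
    linear_combination r1 * hs - hp
  have e2 : r1 ^ 2 - (1 - ρ ^ 2) ^ 2 = r1 * (r1 - r2) := by
    linear_combination hp
  have e3 : (r1 - r2) ^ 2 = (4 * ρ ^ 2 - x) * (4 - x) := by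
    linear_combination (r1 + r2 + (2 * (1 + ρ ^ 2) - x)) * hs - 4 * hp
  unfold F0 Y0
  rw [e1, e2]
  linear_combination (x ^ 2 * r1 ^ 4) * e3

/-- the trace of `F0² F3²` -/
lemma trace {ρ x r1 r2 : A} (hs : r1 + r2 = 2 * (1 + ρ ^ 2) - x) (hp : r1 * r2 = (1 - ρ ^ 2) ^ 2)
    (F : Polynomial ℝ) :
    (F0 ρ r1 * Polynomial.aeval r1 F) ^ 2 + (F0 ρ r2 * Polynomial.aeval r2 F) ^ 2 =
      Y0 ρ x * KK (2 * (1 + ρ ^ 2) - x) ((1 - ρ ^ 2) ^ 2) (Polynomial.X ^ 4 * F ^ 2) := by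
  rw [KK_eq hs hp, mul_pow, mul_pow, F0_sq hs hp,
    F0_sq (r1 := r2) (r2 := r1) (by rw [add_comm]; exact hs) (by rw [mul_comm]; exact hp)]
  simp only [map_mul, map_pow, Polynomial.aeval_X]
  ring

section quart

variable {ρ z1 z2 w1 w2 z1' z2' w1' w2' : A}

lemma id_sum (h1 : z1 * z1' = 1) (h2 : z2 * z2' = 1) (h3 : w1 * w1' = 1) (h4 : w2 * w2' = 1) :
    (z1 + ρ * w1) * (z1' + ρ * w1') + (z1 + ρ * w2) * (z1' + ρ * w2') -
      (2 * (1 + ρ ^ 2) - (z1 + z2) * (z1' + z2')) =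
    z1 * (z1' + z2' + ρ * (w1' + w2')) + z1' * (z1 + z2 + ρ * (w1 + w2)) := by
  linear_combination h1 + h2 + ρ ^ 2 * h3 + ρ ^ 2 * h4

lemma id_prod (h1 : z1 * z1' = 1) (h2 : z2 * z2' = 1) (h3 : w1 * w1' = 1) (h4 : w2 * w2' = 1) :
    (z1 + ρ * w1) * (z1' + ρ * w1') * ((z1 + ρ * w2) * (z1' + ρ * w2')) - (1 - ρ ^ 2) ^ 2 =
    (z1 + z2 + ρ * (w1 + w2)) * (z1 * ((z1' + ρ * w1') * (z1' + ρ * w2'))) +
    (z1' + z2' + ρ * (w1' + w2')) * (z1' * (- (z1 * z2) + ρ ^ 2 * (w1 * w2))) -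
    (z1 * z2 * (w1' * w2') + z1' * z2' * (w1 * w2) - 2) * ρ ^ 2 := by
  have a : z1 * z2 * (z1' * z2') = 1 := by linear_combination (z2 * z2') * h1 + h2
  have b : w1 * w2 * (w1' * w2') = 1 := by linear_combination (w2 * w2') * h3 + h4
  linear_combination a + ρ ^ 4 * b

lemma id_r (h : True) : (z1 + ρ * w1) * (z1' + ρ * w1') - (z2 + ρ * w2) * (z2' + ρ * w2') =
    (z1' + z2' + ρ * (w1' + w2')) * (z1 + ρ * w1) -
      (z1 + z2 + ρ * (w1 + w2)) * (z2' + ρ * w2') := by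
  ring

lemma id_x (h : True) : (z1 + z2) * (z1' + z2') - ρ ^ 2 * ((w1 + w2) * (w1' + w2')) =
    (z1' + z2' + ρ * (w1' + w2')) * (z1 + z2) -
      (z1 + z2 + ρ * (w1 + w2)) * (ρ * (w1' + w2')) := by
  ring

end quart

section cubic

variable {ρ τ z w y z' w' y' : A}

lemma id_c (h3 : y * y' = 1) : (z + ρ * w) * (z' + ρ * w') - τ ^ 2 =
    (z + ρ * w + τ * y) * (z' + ρ * w') - (z' + ρ * w' + τ * y') * (τ * y) := by
  linear_combination (τ ^ 2) * h3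

end cubic

end

end Pool.Agent.J4H76.TP
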