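import Pool.Agent.J4H76.TP.Alg
import Pool.Agent.J4H76.TP.Ring

/-! The algebra of the joint fourth moments. -/
set_option autoImplicit false
open Filter Topology

namespace Pool.Agent.J4H76.TP

noncomputable section

open AddMonoidAlgebra (single)

variable {G : Type} [AddCommGroup G]

/-- change of variables -/
def io (α : ℤ →+ G) : AA ℤ →ₐ[ℝ] AA G := AddMonoidAlgebra.mapDomainAlgHom ℝ BS α

lemma io_single (α : ℤ →+ G) (k : ℤ) (r : BS) : io α (single k r) = single (α k) r :=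
  AddMonoidAlgebra.mapDomain_single

lemma EE_io (J : G → ℕ → ℂ) (α : ℤ →+ G) (f : AA ℤ) (n : ℕ) :
    EE J (io α f) n = EE (fun k => J (α k)) f n := by
  induction f using AddMonoidAlgebra.induction_linear with
  | zero => rw [map_zero, EE_zero, EE_zero]
  | add f g hf hg => rw [map_add, EE_add, EE_add, hf, hg]
  | single a s => rw [io_single, EE_single, EE_single]

/-- products of two functions of one variable -/
lemma EE_mul_io (J : G → ℕ → ℂ) (α β : ℤ →+ G) (f g : AA ℤ) (n : ℕ) :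
    EE J (io α f * io β g) n = ∑ k ∈ f.coeff.support, ∑ l ∈ g.coeff.support,
      (((f.coeff k).1 n : ℝ) : ℂ) * ((((g.coeff l).1 n : ℝ) : ℂ) * J (α k + β l) n) := by
  have h1 : ∀ (a : G) (r : BS) (g : AA ℤ), EE J (single a r * io β g) n =
      ((r.1 n : ℝ) : ℂ) * EE (fun l => J (a + β l)) g n := by
    intro a r g
    induction g using AddMonoidAlgebra.induction_linear with
    | zero => rw [map_zero, mul_zero, EE_zero, EE_zero, mul_zero]
    | add f g hf hg => rw [map_add, mul_add, EE_add, EE_add, hf, hg]; ring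
    | single b s =>
      rw [io_single, AddMonoidAlgebra.single_mul_single, EE_single, EE_single]
      rw [BS.mul_ap]; push_cast; ring
  have h2 : ∀ f : AA ℤ, EE J (io α f * io β g) n =
      f.coeff.sum fun k r => ((r.1 n : ℝ) : ℂ) * EE (fun l => J (α k + β l)) g n := by
    intro f
    have h3 : (f.coeff.sum fun k r => ((r.1 n : ℝ) : ℂ) * EE (fun l => J (α k + β l)) g n) =
      EE (fun k n => EE (fun l => J (α k + β l)) g n) f n := rfl
    rw [h3]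
    clear h3
    induction f using AddMonoidAlgebra.induction_linear with
    | zero => rw [map_zero, zero_mul, EE_zero, EE_zero]
    | add f g hf hg => rw [map_add, add_mul, EE_add, EE_add, hf, hg]
    | single a s => rw [io_single, h1, EE_single]
  rw [h2]
  unfold EE
  simp only [Finsupp.sum, Finset.mul_sum]

/-- constants -/
def cs (r : BS) : AA G := algebraMap BS (AA G) r

lemma cs_eq (r : BS) : (cs r : AA G) = single 0 r := rfl

lemma io_cs (α : ℤ →+ G) (r : BS) : io α (cs r) = cs r := by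
  rw [cs_eq, cs_eq, io_single, map_zero]

abbrev Z4 := ℤ × ℤ × ℤ × ℤ

/-- monomials -/
def mn (a b c d : ℤ) : AA Z4 := single (a, b, c, d) 1

lemma mn_mul (a b c d a' b' c' d' : ℤ) :
    mn a b c d * mn a' b' c' d' = mn (a + a') (b + b') (c + c') (d + d') := by
  unfold mn
  rw [AddMonoidAlgebra.single_mul_single, mul_one]
  rfl

lemma mn_one : mn 0 0 0 0 = 1 := rfl

/-- the momentum relation -/
def TT (ρ : BS) : AA Z4 := mn 1 0 0 0 + mn 0 1 0 0 + cs ρ * (mn 0 0 1 0 + mn 0 0 0 1)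
/-- the conjugate momentum relation -/
def TT' (ρ : BS) : AA Z4 := mn (-1) 0 0 0 + mn 0 (-1) 0 0 + cs ρ * (mn 0 0 (-1) 0 + mn 0 0 0 (-1))
/-- the null form -/
def NF : AA Z4 := mn 1 1 (-1) (-1) + mn (-1) (-1) 1 1 - 2

/-- a quartic system -/
structure QS (ρ : BS) (J : Z4 → ℕ → ℂ) : Prop where
  t : TT ρ ∈ NI J
  t' : TT' ρ ∈ NI J
  nf : NF ∈ NI J
  sw : ∀ a b c d n, J (a, b, c, d) n = J (a, b, d, c) n

/-- directions -/
def dir (a b c d : ℤ) : ℤ →+ Z4 where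
  toFun k := (k * a, k * b, k * c, k * d)
  map_zero' := by simp
  map_add' k l := by simp [add_mul]

/-- `r = 1 + ρ² + ρ (y + 1/y)` -/
def rr (ρ : BS) : AA ℤ := 1 + cs ρ ^ 2 + cs ρ * (single 1 1 + single (-1) 1)

/-- `F0(r) F(r)` -/
def PP (ρ : BS) (F : Polynomial ℝ) : AA ℤ := F0 (cs ρ) (rr ρ) * Polynomial.aeval (rr ρ) F

/-- `x (4 - x)` for the first pair -/
def xz : AA ℤ := 2 + single 1 1 + single (-1) 1
def A1 : AA ℤ := xz * (4 - xz)

/-- the second pair -/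
def xw (ρ : BS) : AA ℤ := cs ρ ^ 2 * (2 + single 1 1 + single (-1) 1)
def B1 (ρ : BS) (F : Polynomial ℝ) : AA ℤ := xw ρ * (4 * cs ρ ^ 2 - xw ρ) *
  KK (2 * (1 + cs ρ ^ 2) - xw ρ) ((1 - cs ρ ^ 2) ^ 2) (Polynomial.X ^ 4 * F ^ 2)

lemma map_F0 {A B : Type} [CommRing A] [CommRing B] [Algebra ℝ A] [Algebra ℝ B] (f : A →ₐ[ℝ] B)
    (ρ r : A) : f (F0 ρ r) = F0 (f ρ) (f r) := by
  unfold F0
  simp only [map_mul, map_sub, map_add, map_pow, map_one, map_ofNat]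

/-- images of `r` -/
lemma io_rr (ρ : BS) (a b c d : ℤ) : io (dir a b c d) (rr ρ) =
    1 + cs ρ ^ 2 + cs ρ * (mn a b c d + mn (-a) (-b) (-c) (-d)) := by
  unfold rr
  simp only [map_add, map_mul, map_one, map_pow, io_cs, io_single]
  congr 2
  · simp [dir, mn]

lemma io_xx (a b c d : ℤ) : io (dir a b c d) (single 1 1 : AA ℤ) = mn a b c d := by
  rw [io_single]; simp [dir, mn]

lemma io_xx' (a b c d : ℤ) : io (dir a b c d) (single (-1) 1 : AA ℤ) = mn (-a) (-b) (-c) (-d) := by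
  rw [io_single]; simp [dir, mn]

lemma mem_of_quot {J : Z4 → ℕ → ℂ} {f : AA Z4}
    (h : Ideal.Quotient.mkₐ ℝ (NI J) f = 0) : Tendsto (EE J f) atTop (𝓝 0) :=
  NI_tendsto (Ideal.Quotient.eq_zero_iff_mem.1 h)

/-- **the main identity** -/
theorem QS.main {ρ : BS} {J : Z4 → ℕ → ℂ} (H : QS ρ J) (F : Polynomial ℝ) :
    Tendsto (fun n => 2 * EE J (io (dir 1 0 (-1) 0) (PP ρ F) * io (dir 0 (-1) 0 1) (PP ρ F)) n -
      EE J (io (dir 1 (-1) 0 0) A1 * io (dir 0 0 1 (-1)) (B1 ρ F)) n) atTop (𝓝 0) := by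
  have qt : Ideal.Quotient.mkₐ ℝ (NI J) (TT ρ) = 0 := Ideal.Quotient.eq_zero_iff_mem.2 H.t
  have qt' : Ideal.Quotient.mkₐ ℝ (NI J) (TT' ρ) = 0 := Ideal.Quotient.eq_zero_iff_mem.2 H.t'
  have qn : Ideal.Quotient.mkₐ ℝ (NI J) NF = 0 := Ideal.Quotient.eq_zero_iff_mem.2 H.nf
  have mq : ∀ f : AA Z4, Ideal.Quotient.mkₐ ℝ (NI J) f = 0 → Tendsto (EE J f) atTop (𝓝 0) :=
    fun f h => mem_of_quot h
  obtain ⟨Q, hQ⟩ : ∃ Q : AA Z4 →ₐ[ℝ] (AA Z4 ⧸ NI J), Q = Ideal.Quotient.mkₐ ℝ (NI J) := ⟨_, rfl⟩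
  rw [← hQ] at qt qt' qn mq
  obtain ⟨c, hc⟩ : ∃ c, c = Q (cs ρ) := ⟨_, rfl⟩
  obtain ⟨z1, hz1⟩ : ∃ c, c = Q (mn 1 0 0 0) := ⟨_, rfl⟩
  obtain ⟨z2, hz2⟩ : ∃ c, c = Q (mn 0 1 0 0) := ⟨_, rfl⟩
  obtain ⟨w1, hw1⟩ : ∃ c, c = Q (mn 0 0 1 0) := ⟨_, rfl⟩
  obtain ⟨w2, hw2⟩ : ∃ c, c = Q (mn 0 0 0 1) := ⟨_, rfl⟩
  obtain ⟨z1', hz1'⟩ : ∃ c, c = Q (mn (-1) 0 0 0) := ⟨_, rfl⟩
  obtain ⟨z2', hz2'⟩ : ∃ c, c = Q (mn 0 (-1) 0 0) := ⟨_, rfl⟩
  obtain ⟨w1', hw1'⟩ : ∃ c, c = Q (mn 0 0 (-1) 0) := ⟨_, rfl⟩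
  obtain ⟨w2', hw2'⟩ : ∃ c, c = Q (mn 0 0 0 (-1)) := ⟨_, rfl⟩
  have i1 : z1 * z1' = 1 := by rw [hz1, hz1', ← map_mul, mn_mul]; exact map_one Q
  have i2 : z2 * z2' = 1 := by rw [hz2, hz2', ← map_mul, mn_mul]; exact map_one Q
  have i3 : w1 * w1' = 1 := by rw [hw1, hw1', ← map_mul, mn_mul]; exact map_one Q
  have i4 : w2 * w2' = 1 := by rw [hw2, hw2', ← map_mul, mn_mul]; exact map_one Q
  have t : z1 + z2 + c * (w1 + w2) = 0 := by
    rw [← qt, TT, hz1, hz2, hw1, hw2, hc]; simp only [map_add, map_mul]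
  have t' : z1' + z2' + c * (w1' + w2') = 0 := by
    rw [← qt', TT', hz1', hz2', hw1', hw2', hc]; simp only [map_add, map_mul]
  have nf : z1 * z2 * (w1' * w2') + z1' * z2' * (w1 * w2) - 2 = 0 := by
    rw [← qn, NF, hz1, hz2, hw1, hw2, hz1', hz2', hw1', hw2']
    simp only [map_add, map_sub, ← map_mul, mn_mul, map_ofNat]
    rfl
  obtain ⟨r1, hr1⟩ : ∃ r, r = (z1 + c * w1) * (z1' + c * w1') := ⟨_, rfl⟩
  obtain ⟨r2, hr2⟩ : ∃ r, r = (z1 + c * w2) * (z1' + c * w2') := ⟨_, rfl⟩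
  obtain ⟨x, hx⟩ : ∃ r, r = (z1 + z2) * (z1' + z2') := ⟨_, rfl⟩
  have hs : r1 + r2 = 2 * (1 + c ^ 2) - x := by
    have := id_sum (ρ := c) i1 i2 i3 i4
    rw [t, t', mul_zero, mul_zero, add_zero, ← hr1, ← hr2, ← hx, sub_eq_zero] at this
    exact this
  have hp : r1 * r2 = (1 - c ^ 2) ^ 2 := by
    have := id_prod (ρ := c) i1 i2 i3 i4
    rw [t, t', nf, zero_mul, zero_mul, zero_mul, add_zero, sub_zero, ← hr1, ← hr2,
      sub_eq_zero] at this
    exact this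
  have hr : (z2 + c * w2) * (z2' + c * w2') = r1 := by
    have := id_r (ρ := c) (z1 := z1) (z2 := z2) (w1 := w1) (w2 := w2) (z1' := z1') (z2' := z2')
      (w1' := w1') (w2' := w2') trivial
    rw [t, t', zero_mul, zero_mul, sub_zero, ← hr1, sub_eq_zero] at this
    exact this.symm
  have hxw : c ^ 2 * ((w1 + w2) * (w1' + w2')) = x := by
    have := id_x (ρ := c) (z1 := z1) (z2 := z2) (w1 := w1) (w2 := w2) (z1' := z1') (z2' := z2')
      (w1' := w1') (w2' := w2') trivial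
    rw [t, t', zero_mul, zero_mul, sub_zero, ← hx, sub_eq_zero] at this
    exact this.symm
  -- the images
  have qPP : ∀ (a b c' d : ℤ) (r : AA Z4 ⧸ NI J), Q (io (dir a b c' d) (rr ρ)) = r →
      Q (io (dir a b c' d) (PP ρ F)) = F0 c r * Polynomial.aeval r F := by
    intro a b c' d r h
    unfold PP
    rw [map_mul, map_mul, map_F0, map_F0, io_cs, h, ← hc, ← Polynomial.aeval_algHom_apply,
      ← Polynomial.aeval_algHom_apply, h]
  have e13 : Q (io (dir 1 0 (-1) 0) (rr ρ)) = r1 := by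
    have h1 : Q (mn 1 0 (-1) 0) = z1 * w1' := by rw [hz1, hw1', ← map_mul, mn_mul]; rfl
    have h2 : Q (mn (-1) (-0) (- -1) (-0)) = z1' * w1 := by rw [hz1', hw1, ← map_mul, mn_mul]; rfl
    rw [io_rr]
    simp only [map_add, map_mul, map_one, map_pow]
    rw [h1, h2, ← hc, hr1]
    linear_combination (-1 : AA Z4 ⧸ NI J) * i1 - c ^ 2 * i3
  have e14 : Q (io (dir 1 0 0 (-1)) (rr ρ)) = r2 := by
    have h1 : Q (mn 1 0 0 (-1)) = z1 * w2' := by rw [hz1, hw2', ← map_mul, mn_mul]; rfl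
    have h2 : Q (mn (-1) (-0) (-0) (- -1)) = z1' * w2 := by rw [hz1', hw2, ← map_mul, mn_mul]; rfl
    rw [io_rr]
    simp only [map_add, map_mul, map_one, map_pow]
    rw [h1, h2, ← hc, hr2]
    linear_combination (-1 : AA Z4 ⧸ NI J) * i1 - c ^ 2 * i4
  have e24 : Q (io (dir 0 (-1) 0 1) (rr ρ)) = r1 := by
    have h1 : Q (mn 0 (-1) 0 1) = z2' * w2 := by rw [hz2', hw2, ← map_mul, mn_mul]; rfl
    have h2 : Q (mn (-0) (- -1) (-0) (-1)) = z2 * w2' := by rw [hz2, hw2', ← map_mul, mn_mul]; rfl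
    rw [io_rr]
    simp only [map_add, map_mul, map_one, map_pow]
    rw [h1, h2, ← hc, ← hr]
    linear_combination (-1 : AA Z4 ⧸ NI J) * i2 - c ^ 2 * i4
  have eA : Q (io (dir 1 (-1) 0 0) A1) = x * (4 - x) := by
    have h1 : Q (mn 1 (-1) 0 0) = z1 * z2' := by rw [hz1, hz2', ← map_mul, mn_mul]; rfl
    have h2 : Q (mn (-1) (- -1) (-0) (-0)) = z1' * z2 := by rw [hz1', hz2, ← map_mul, mn_mul]; rfl
    have h3 : Q (io (dir 1 (-1) 0 0) xz) = x := by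
      unfold xz
      simp only [map_add, map_ofNat, io_xx, io_xx']
      rw [h1, h2, hx]
      linear_combination (-1 : AA Z4 ⧸ NI J) * i1 - i2
    unfold A1
    simp only [map_mul, map_sub, map_ofNat, h3]
  have eB : Q (io (dir 0 0 1 (-1)) (B1 ρ F)) = x * (4 * c ^ 2 - x) *
      KK (2 * (1 + c ^ 2) - x) ((1 - c ^ 2) ^ 2) (Polynomial.X ^ 4 * F ^ 2) := by
    have h1 : Q (mn 0 0 1 (-1)) = w1 * w2' := by rw [hw1, hw2', ← map_mul, mn_mul]; rfl
    have h2 : Q (mn (-0) (-0) (-1) (- -1)) = w1' * w2 := by rw [hw1', hw2, ← map_mul, mn_mul]; rfl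
    have h3 : Q (io (dir 0 0 1 (-1)) (xw ρ)) = x := by
      unfold xw
      simp only [map_add, map_mul, map_pow, map_ofNat, io_xx, io_xx', io_cs]
      rw [h1, h2, ← hc, ← hxw]
      linear_combination (-c ^ 2) * i3 - c ^ 2 * i4
    unfold B1
    rw [map_mul, map_mul, KK_map, KK_map]
    simp only [map_add, map_mul, map_sub, map_pow, map_ofNat, map_one, h3, io_cs, ← hc]
  have tr := trace hs hp F
  have p1 : Tendsto (EE J (io (dir 1 0 (-1) 0) (PP ρ F) * io (dir 1 0 (-1) 0) (PP ρ F) +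
      io (dir 1 0 0 (-1)) (PP ρ F) * io (dir 1 0 0 (-1)) (PP ρ F) -
      io (dir 1 (-1) 0 0) A1 * io (dir 0 0 1 (-1)) (B1 ρ F))) atTop (𝓝 0) := by
    refine mq _ ?_
    rw [map_sub, map_add, map_mul, map_mul, map_mul, qPP _ _ _ _ _ e13, qPP _ _ _ _ _ e14, eA, eB,
      ← sq, ← sq, tr, Y0]
    ring
  have p2 : Tendsto (EE J (io (dir 1 0 (-1) 0) (PP ρ F) * io (dir 0 (-1) 0 1) (PP ρ F) -
      io (dir 1 0 (-1) 0) (PP ρ F) * io (dir 1 0 (-1) 0) (PP ρ F))) atTop (𝓝 0) := by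
    refine mq _ ?_
    rw [map_sub, map_mul, map_mul, qPP _ _ _ _ _ e13, qPP _ _ _ _ _ e24]
    ring
  have p3 : ∀ n, EE J (io (dir 1 0 (-1) 0) (PP ρ F) * io (dir 1 0 (-1) 0) (PP ρ F)) n =
      EE J (io (dir 1 0 0 (-1)) (PP ρ F) * io (dir 1 0 0 (-1)) (PP ρ F)) n := by
    intro n
    rw [← map_mul, ← map_mul, EE_io, EE_io]
    congr 1
    funext k n
    simp only [dir, AddMonoidHom.coe_mk, ZeroHom.coe_mk]
    exact H.sw _ _ _ _ n
  have p4 := (p2.const_mul 2).add p1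
  rw [mul_zero, add_zero] at p4
  refine p4.congr fun n => ?_
  rw [EE_sub, EE_sub, EE_add, ← p3 n]
  ring

end

end Pool.Agent.J4H76.TP
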