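import Pool.Agent.J4H76.TP.Quart
import Pool.Agent.R314.JN.Null
import Pool.Agent.Y265.HY.PS2

/-! The joint fourth moments of two ladder systems. -/
set_option autoImplicit false
open MeasureTheory Filter Topology Complex Set
open scoped ContDiff Real Manifold

namespace Pool.Agent.J4H76.TP

open Pool.Agent.W745.RW Pool.Agent.TH294.RS Pool.Agent.Y265.HY Pool.Agent.R314.JN
open AddMonoidAlgebra (single)

noncomputable section

variable {B : Set ℂ} {h κ : ℕ → ℝ} {w v : ℤ → ℕ → ℂ → ℂ}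

lemma int4' {f g p q : ℂ → ℂ} {r : ℂ} (hf : Integrable f) (hg : Integrable g)
    (hp : Integrable p) (hq : Integrable q) :
    (∫ z, f z) + (∫ z, g z) + r * ((∫ z, p z) + (∫ z, q z)) =
      ∫ z, (f z + g z + r * (p z + q z)) := by
  have h1 : Integrable (fun z => f z + g z) := hf.add hg
  have h2 : Integrable (fun z => p z + q z) := hp.add hq
  have h3 : Integrable (fun z => r * (p z + q z)) := h2.const_mul r
  rw [integral_add h1 h3, integral_add hf hg, integral_const_mul, integral_add hp hq]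

lemma int5' {f g p q : ℂ → ℂ} (hf : Integrable f) (hg : Integrable g)
    (hp : Integrable p) (hq : Integrable q) :
    (∫ z, f z) + (∫ z, g z) - 2 * (∫ z, p z) - (∫ z, q z) =
      ∫ z, (f z + g z - 2 * p z - q z) := by
  have h1 : Integrable (fun z => f z + g z) := hf.add hg
  have h2 : Integrable (fun z => 2 * p z) := hp.const_mul 2
  have h3 : Integrable (fun z => f z + g z - 2 * p z) := h1.sub h2
  rw [integral_sub h3 hq, integral_sub h1 h2, integral_add hf hg, integral_const_mul]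

/-- joint moments -/
def J4 (w v : ℤ → ℕ → ℂ → ℂ) (φ : ℂ → ℝ) (a b c d : ℤ) (n : ℕ) : ℂ :=
  ∫ z, (φ z : ℂ) * (w a n z * w b n z * (v c n z * v d n z))

/-- deviation of the joint moments from the Gaussian ones -/
def JD (w v : ℤ → ℕ → ℂ → ℂ) (φ : ℂ → ℝ) (a : Z4) (n : ℕ) : ℂ :=
  J4 w v φ a.1 a.2.1 a.2.2.1 a.2.2.2 n - CC a.1 a.2.1 * CC a.2.2.1 a.2.2.2 *
    ((∫ z, φ z : ℝ) : ℂ)

lemma J4_int (H : SY B Complex.im h w) (H' : SY B Complex.im κ v) {φ : ℂ → ℝ} (hφ : TF B φ)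
    (a b c d : ℤ) (n : ℕ) :
    Integrable (fun z => (φ z : ℂ) * (w a n z * w b n z * (v c n z * v d n z))) :=
  TF.cint hφ ((((H.bd a).sm n).continuousOn.mul ((H.bd b).sm n).continuousOn).mul
    (((H'.bd c).sm n).continuousOn.mul ((H'.bd d).sm n).continuousOn))

lemma EE_mn (J : Z4 → ℕ → ℂ) (a b c d : ℤ) (g : Z4) (n : ℕ) :
    EE J (mn a b c d * single g 1) n = J (a + g.1, b + g.2.1, c + g.2.2.1, d + g.2.2.2) n := by
  unfold mn
  rw [AddMonoidAlgebra.single_mul_single, mul_one, EE_single, BS.one_ap]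
  simp only [ofReal_one, one_mul]
  rfl

lemma EE_cs (J : Z4 → ℕ → ℂ) (r : BS) (f : AA Z4) (n : ℕ) :
    EE J (cs r * f) n = ((r.1 n : ℝ) : ℂ) * EE J f n := by
  rw [cs_eq, EE_smul]

/-- the translation relation -/
lemma J4_T (H : SY B Complex.im h w) (H' : SY B Complex.im κ v) (hBU : B ⊆ UH) {C : ℝ}
    (hC : ∀ n, h n ≤ C * κ n) (h0 : EX B h w (w 0)) (k0 : EX B κ v (v 0)) {φ : ℂ → ℝ}
    (hφ : TF B φ) (a b c d : ℤ) :
    Tendsto (fun n => J4 w v φ (a + 1) b c d n + J4 w v φ a (b + 1) c d n +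
      ((h n / κ n : ℝ) : ℂ) * (J4 w v φ a b (c + 1) d n + J4 w v φ a b c (d + 1) n)) atTop
      (𝓝 0) := by
  refine ((tr5 H H' hBU hC h0 k0 a b c d).nul φ hφ).congr fun n => ?_
  unfold J4
  have i1 := J4_int H H' hφ (a + 1) b c d n
  have i2 := J4_int H H' hφ a (b + 1) c d n
  have i3 := J4_int H H' hφ a b (c + 1) d n
  have i4 := J4_int H H' hφ a b c (d + 1) n
  rw [int4' i1 i2 i3 i4]
  congr 1; funext z
  ring

/-- conjugation -/
lemma J4_conj (H : SY B Complex.im h w) (H' : SY B Complex.im κ v) {φ : ℂ → ℝ}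
    (hφ : TF B φ) (a b c d : ℤ) (n : ℕ) :
    J4 w v φ (-a) (-b) (-c) (-d) n = (-1) ^ (a.natAbs + b.natAbs + c.natAbs + d.natAbs) *
      (starRingEnd ℂ) (J4 w v φ a b c d n) := by
  unfold J4
  rw [← integral_conj, ← integral_const_mul]
  congr 1; funext z
  by_cases hz : z ∈ B
  · have s : ∀ k : ℕ, ((-1 : ℂ) ^ k) * (-1) ^ k = 1 := fun k => by
      rw [← mul_pow]; norm_num
    simp only [map_mul, conj_ofReal]
    rw [H.cj a n z hz, H.cj b n z hz, H'.cj c n z hz, H'.cj d n z hz, pow_add, pow_add, pow_add]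
    have e : (-1 : ℂ) ^ a.natAbs * (-1) ^ b.natAbs * (-1) ^ c.natAbs * (-1) ^ d.natAbs *
        (↑(φ z) * ((-1) ^ a.natAbs * w (-a) n z * ((-1) ^ b.natAbs * w (-b) n z) *
          ((-1) ^ c.natAbs * v (-c) n z * ((-1) ^ d.natAbs * v (-d) n z)))) =
        (((-1 : ℂ) ^ a.natAbs * (-1) ^ a.natAbs) * ((-1) ^ b.natAbs * (-1) ^ b.natAbs) *
        ((-1) ^ c.natAbs * (-1) ^ c.natAbs) * ((-1) ^ d.natAbs * (-1) ^ d.natAbs)) *
        (↑(φ z) * (w (-a) n z * w (-b) n z * (v (-c) n z * v (-d) n z))) := by ring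
    rw [e, s, s, s, s]; ring
  · rw [TF.zero hφ hz]; simp

lemma sgn_up (k : ℤ) : (-1 : ℂ) ^ (k + 1).natAbs = - (-1) ^ k.natAbs := by
  have h1 : (-1 : ℂ) ^ (k + 1).natAbs = (-1 : ℂ) ^ (k + 1) := by
    rcases Int.natAbs_eq (k + 1) with h | h
    · conv_rhs => rw [h]
      rw [zpow_natCast]
    · conv_rhs => rw [h]
      rw [zpow_neg, zpow_natCast, ← inv_pow, inv_neg_one]
  have h2 : (-1 : ℂ) ^ k.natAbs = (-1 : ℂ) ^ k := by
    rcases Int.natAbs_eq k with h | h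
    · conv_rhs => rw [h]
      rw [zpow_natCast]
    · conv_rhs => rw [h]
      rw [zpow_neg, zpow_natCast, ← inv_pow, inv_neg_one]
  rw [h1, h2, zpow_add_one₀ (by norm_num)]; ring

/-- the lowering relation -/
lemma J4_T' (H : SY B Complex.im h w) (H' : SY B Complex.im κ v) (hBU : B ⊆ UH) {C : ℝ}
    (hC : ∀ n, h n ≤ C * κ n) (h0 : EX B h w (w 0)) (k0 : EX B κ v (v 0)) {φ : ℂ → ℝ}
    (hφ : TF B φ) (a b c d : ℤ) :
    Tendsto (fun n => J4 w v φ (-1 + a) b c d n + J4 w v φ a (-1 + b) c d n +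
      ((h n / κ n : ℝ) : ℂ) * (J4 w v φ a b (-1 + c) d n + J4 w v φ a b c (-1 + d) n)) atTop
      (𝓝 0) := by
  have h1 := J4_T H H' hBU hC h0 k0 hφ (-a) (-b) (-c) (-d)
  have h2 := (continuous_conj.tendsto 0).comp h1
  rw [map_zero] at h2
  have h3 := h2.const_mul (-(-1) ^ ((-a).natAbs + (-b).natAbs + (-c).natAbs + (-d).natAbs))
  rw [mul_zero] at h3
  refine h3.congr fun n => ?_
  have g : ∀ a b c d : ℤ, J4 w v φ a b c d n =
      (-1) ^ ((-a).natAbs + (-b).natAbs + (-c).natAbs + (-d).natAbs) *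
      (starRingEnd ℂ) (J4 w v φ (-a) (-b) (-c) (-d) n) := by
    intro a b c d
    have := J4_conj H H' hφ (-a) (-b) (-c) (-d) n
    rwa [neg_neg, neg_neg, neg_neg, neg_neg] at this
  have s : ∀ k : ℤ, (-1 : ℂ) ^ (-(-1 + k)).natAbs = - (-1) ^ (-k).natAbs := by
    intro k
    have : -(-1 + k) = -k + 1 := by ring
    rw [this, sgn_up]
  have e : ∀ k : ℤ, -(-1 + k) = -k + 1 := fun k => by ring
  rw [g (-1 + a) b c d, g a (-1 + b) c d, g a b (-1 + c) d, g a b c (-1 + d)]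
  simp only [pow_add, s]
  simp only [Function.comp_apply, map_add, map_mul, conj_ofReal, e]
  ring

lemma J4_N (H : SY B Complex.im h w) (H' : SY B Complex.im κ v) (hBU : B ⊆ UH) {C : ℝ}
    (hC : ∀ n, h n ≤ C * κ n) (hC' : ∀ n, κ n ≤ C * h n) (h0 : EX B h w (w 0))
    (k0 : EX B κ v (v 0)) {φ : ℂ → ℝ} (hφ : TF B φ) (a b c d : ℤ) :
    Tendsto (fun n => J4 w v φ (a + 1) (b + 1) (c - 1) (d - 1) n +
      J4 w v φ (a - 1) (b - 1) (c + 1) (d + 1) n - 2 * J4 w v φ a b c d n -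
      (CC (a + 1) (b + 1) * CC (c - 1) (d - 1) + CC (a - 1) (b - 1) * CC (c + 1) (d + 1) -
        2 * CC a b * CC c d) * ((∫ z, φ z : ℝ) : ℂ)) atTop (𝓝 0) := by
  refine ((nWJ H H' hBU hC hC' h0 k0 a b c d).nul φ hφ).congr fun n => ?_
  unfold J4
  have i1 := J4_int H H' hφ (a + 1) (b + 1) (c - 1) (d - 1) n
  have i2 := J4_int H H' hφ (a - 1) (b - 1) (c + 1) (d + 1) n
  have i3 := J4_int H H' hφ a b c d n
  have i0 : Integrable (fun z => (φ z : ℂ)) :=
    (hφ.1.continuous.integrable_of_hasCompactSupport hφ.2.1).ofReal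
  obtain ⟨K, hK⟩ : ∃ K, K = CC (a + 1) (b + 1) * CC (c - 1) (d - 1) +
    CC (a - 1) (b - 1) * CC (c + 1) (d + 1) - 2 * CC a b * CC c d := ⟨_, rfl⟩
  rw [← hK]
  have e0 : K * ((∫ z, φ z : ℝ) : ℂ) = ∫ z, K * (φ z : ℂ) := by
    rw [integral_const_mul, integral_complex_ofReal]
  rw [e0, int5' i1 i2 i3 (i0.const_mul K)]
  congr 1; funext z
  ring

/-- **The two ladder systems satisfy the relations.** -/
theorem qs (H : SY B Complex.im h w) (H' : SY B Complex.im κ v) (hBU : B ⊆ UH) {C : ℝ}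
    (hC : ∀ n, h n ≤ C * κ n) (hC' : ∀ n, κ n ≤ C * h n) (h0 : EX B h w (w 0))
    (k0 : EX B κ v (v 0)) {φ : ℂ → ℝ} (hφ : TF B φ) (ρ : BS) (hρ : ∀ n, ρ.1 n = h n / κ n) :
    QS ρ (JD w v φ) where
  t := by
    refine mem_NI fun g => ?_
    obtain ⟨a, b, c, d⟩ := g
    refine (J4_T H H' hBU hC h0 k0 hφ a b c d).congr fun n => ?_
    rw [TT, add_mul, add_mul, mul_assoc, add_mul, EE_add, EE_add, EE_cs, EE_add, EE_mn, EE_mn,
      EE_mn, EE_mn, hρ]
    simp only [JD, zero_add]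
    have c1 := CC_up a b
    have c2 := CC_up c d
    rw [add_comm 1 a, add_comm 1 b, add_comm 1 c, add_comm 1 d]
    rw [c1, c2]
    ring
  t' := by
    refine mem_NI fun g => ?_
    obtain ⟨a, b, c, d⟩ := g
    refine (J4_T' H H' hBU hC h0 k0 hφ a b c d).congr fun n => ?_
    rw [TT', add_mul, add_mul, mul_assoc, add_mul, EE_add, EE_add, EE_cs, EE_add, EE_mn, EE_mn,
      EE_mn, EE_mn, hρ]
    simp only [JD, zero_add]
    have c1 : CC (-1 + a) b = - CC a (-1 + b) := by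
      rw [neg_add_eq_sub, neg_add_eq_sub]; exact CC_dn a b
    have c2 : CC (-1 + c) d = - CC c (-1 + d) := by
      rw [neg_add_eq_sub, neg_add_eq_sub]; exact CC_dn c d
    rw [c1, c2]
    ring
  nf := by
    refine mem_NI fun g => ?_
    obtain ⟨a, b, c, d⟩ := g
    refine (J4_N H H' hBU hC hC' h0 k0 hφ a b c d).congr fun n => ?_
    have e2 : NF * single (a, b, c, d) (1 : BS) = mn 1 1 (-1) (-1) * single (a, b, c, d) 1 +
        mn (-1) (-1) 1 1 * single (a, b, c, d) 1 -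
        (mn 0 0 0 0 * single (a, b, c, d) 1 + mn 0 0 0 0 * single (a, b, c, d) 1) := by
      rw [NF, mn_one]; ring
    rw [e2, EE_sub, EE_add, EE_add, EE_mn, EE_mn, EE_mn]
    simp only [JD, zero_add]
    rw [add_comm 1 a, add_comm 1 b, add_comm 1 c, add_comm 1 d, neg_add_eq_sub, neg_add_eq_sub,
      neg_add_eq_sub, neg_add_eq_sub]
    ring
  sw a b c d n := by
    simp only [JD, J4]
    rw [CC_symm c d]
    congr 2; funext z; ring

end

end Pool.Agent.J4H76.TP
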